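import Pool.Agent.H913.Rig.Rank

set_option autoImplicit false

/-!
Trivial motions, and rigidity in terms of the rank.
-/

namespace Pool.Agent.H913.Rig

open Matrix

/-- Pairs `i < j`. -/
abbrev PD (d : ℕ) : Type := {x : Fin d × Fin d // x.1 < x.2}

section

variable {K V : Type*} [Field K] {d : ℕ}

/-- The skew-symmetric matrix with given entries above the diagonal. -/
def skew (a : PD d → K) : Matrix (Fin d) (Fin d) K := fun i j =>
  if h : i < j then a ⟨(i, j), h⟩ else if h : j < i then - a ⟨(j, i), h⟩ else 0

theorem skew_swap (a : PD d → K) (i j : Fin d) : skew a j i = - skew a i j := by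
  unfold skew
  rcases lt_trichotomy i j with h | h | h
  · rw [dif_neg h.asymm, dif_pos h, dif_pos h]
  · subst h
    simp
  · rw [dif_pos h, dif_neg h.asymm, dif_pos h, neg_neg]

theorem skew_self (a : PD d → K) (i : Fin d) : skew a i i = 0 := by
  unfold skew
  simp

theorem skew_transpose (a : PD d → K) : (skew a)ᵀ = - skew a := by
  ext i j
  rw [Matrix.transpose_apply, Matrix.neg_apply, skew_swap]

theorem skew_eq (A : Matrix (Fin d) (Fin d) K) (hA : ∀ i j, A j i = - A i j) (h0 : ∀ i, A i i = 0) :
    skew (fun x => A x.1.1 x.1.2) = A := by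
  ext i j
  unfold skew
  rcases lt_trichotomy i j with h | h | h
  · rw [dif_pos h]
  · subst h
    simp [h0]
  · rw [dif_neg h.asymm, dif_pos h]
    exact (hA j i).symm

theorem skew_eq_zero (a : PD d → K) (h : skew a = 0) : a = 0 := by
  funext ⟨⟨i, j⟩, hij⟩
  have h1 := congrFun (congrFun h i) j
  unfold skew at h1
  have hij' : i < j := hij
  rw [dif_pos hij'] at h1
  exact h1

/-- The trivial motions. -/
def triv (p : V → Fin d → K) : ((PD d → K) × (Fin d → K)) →ₗ[K] (V × Fin d → K) where
  toFun ab := fun x => (skew ab.1 *ᵥ p x.1) x.2 + ab.2 x.2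
  map_add' ab ab' := by
    funext x
    have h : skew (ab.1 + ab'.1) = skew ab.1 + skew ab'.1 := by
      ext i j
      rw [Matrix.add_apply]
      simp only [skew, Pi.add_apply]
      split_ifs <;> ring
    simp only [Prod.fst_add, Prod.snd_add, h, Matrix.add_mulVec, Pi.add_apply]
    ring
  map_smul' c ab := by
    funext x
    have h : skew (c • ab.1) = c • skew ab.1 := by
      ext i j
      rw [Matrix.smul_apply]
      simp only [skew, Pi.smul_apply, smul_eq_mul]
      split_ifs <;> ring
    simp only [Prod.smul_fst, Prod.smul_snd, h, Matrix.smul_mulVec, Pi.smul_apply, smul_eq_mul,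
      RingHom.id_apply]
    ring

theorem triv_apply (p : V → Fin d → K) (ab : (PD d → K) × (Fin d → K)) (x : V × Fin d) :
    triv p ab x = (skew ab.1 *ᵥ p x.1) x.2 + ab.2 x.2 := rfl

theorem skew_dot [CharZero K] (a : PD d → K) (x : Fin d → K) : ∑ j, x j * (skew a *ᵥ x) j = 0 := by
  have h1 : ∑ j, x j * (skew a *ᵥ x) j = ∑ j, ∑ i, x j * (skew a j i * x i) := by
    apply Finset.sum_congr rfl
    intro j _
    rw [Matrix.mulVec, dotProduct, Finset.mul_sum]
  have h2 : ∑ j, ∑ i, x j * (skew a j i * x i) = - ∑ j, ∑ i, x j * (skew a j i * x i) := by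
    conv_lhs => rw [Finset.sum_comm]
    rw [← Finset.sum_neg_distrib]
    apply Finset.sum_congr rfl
    intro j _
    rw [← Finset.sum_neg_distrib]
    apply Finset.sum_congr rfl
    intro i _
    rw [skew_swap a j i]
    ring
  rw [h1]
  exact self_eq_neg.1 h2

variable [DecidableEq V] [Fintype V] (G : SimpleGraph V)

theorem triv_mem_ker [CharZero K] (p : V → Fin d → K) (ab : (PD d → K) × (Fin d → K)) :
    rigidityMatrix G p *ᵥ (triv p ab) = 0 := by
  rw [mulVec_eq_zero]
  intro u v _
  have h1 : ∑ j, (p u j - p v j) * (triv p ab (u, j) - triv p ab (v, j))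
      = ∑ j, (p u - p v) j * (skew ab.1 *ᵥ (p u - p v)) j := by
    apply Finset.sum_congr rfl
    intro j _
    rw [triv_apply, triv_apply, Matrix.mulVec_sub]
    simp only [Pi.sub_apply]
    ring
  rw [h1]
  exact skew_dot _ _

theorem triv_injective (x : Fin (d + 1) → V) (p : V → Fin d → K) (h : (diffMat x p).det ≠ 0) :
    Function.Injective (triv p) := by
  rw [injective_iff_map_eq_zero]
  rintro ⟨a, b⟩ hab
  have h0 : ∀ v j, (skew a *ᵥ p v) j + b j = 0 := fun v j => congrFun hab (v, j)
  have h1 : skew a * (diffMat x p)ᵀ = 0 := by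
    ext j i
    rw [Matrix.mul_apply]
    have h2 : ∑ l, skew a j l * (diffMat x p)ᵀ l i = (skew a *ᵥ (p (x i.succ))) j
        - (skew a *ᵥ (p (x 0))) j := by
      simp only [Matrix.mulVec, dotProduct, ← Finset.sum_sub_distrib, Matrix.transpose_apply,
        diffMat]
      apply Finset.sum_congr rfl
      intro l _
      ring
    rw [h2]
    have h3 := h0 (x i.succ) j
    have h4 := h0 (x 0) j
    rw [Matrix.zero_apply]
    linear_combination h3 - h4
  have h2 : skew a = 0 := by
    have hu : IsUnit ((diffMat x p)ᵀ).det := by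
      rw [Matrix.det_transpose]
      exact h.isUnit
    have h3 := congrArg (fun M => M * ((diffMat x p)ᵀ)⁻¹) h1
    simp only [Matrix.zero_mul] at h3
    rwa [Matrix.mul_nonsing_inv_cancel_right _ _ hu] at h3
  have h3 := skew_eq_zero a h2
  subst h3
  have h4 : b = 0 := by
    funext j
    have := h0 (x 0) j
    rw [h2] at this
    simpa using this
  rw [h4]
  rfl

theorem finrank_dom : Module.finrank K ((PD d → K) × (Fin d → K)) = Fintype.card (PD d) + d := by
  rw [Module.finrank_prod, Module.finrank_fintype_fun_eq_card, Module.finrank_fintype_fun_eq_card,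
    Fintype.card_fin]

theorem rank_add_ker (p : V → Fin d → K) : (rigidityMatrix G p).rank +
    Module.finrank K (LinearMap.ker (rigidityMatrix G p).mulVecLin) = Fintype.card V * d := by
  have h := LinearMap.finrank_range_add_finrank_ker (rigidityMatrix G p).mulVecLin
  rw [Module.finrank_fintype_fun_eq_card, Fintype.card_prod, Fintype.card_fin] at h
  exact h

/-- Lower bound for the rank when all motions are trivial. -/
theorem rank_ge (p : V → Fin d → K)
    (h : ∀ q, rigidityMatrix G p *ᵥ q = 0 → q ∈ LinearMap.range (triv p)) :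
    Fintype.card V * d ≤ (rigidityMatrix G p).rank + (Fintype.card (PD d) + d) := by
  have h1 : LinearMap.ker (rigidityMatrix G p).mulVecLin ≤ LinearMap.range (triv p) := by
    intro q hq
    exact h q (by simpa using hq)
  have h2 := Submodule.finrank_mono h1
  have h3 := LinearMap.finrank_range_le (triv p)
  rw [finrank_dom] at h3
  have h4 := rank_add_ker G p
  omega

end

section real

variable {V : Type*} [DecidableEq V] [Fintype V] {d : ℕ} (G : SimpleGraph V)

theorem infRigid_of_rank (x : Fin (d + 1) → V) (p : V → Fin d → ℝ) (hp : (diffMat x p).det ≠ 0)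
    (h : Fintype.card V * d ≤ (rigidityMatrix G p).rank + (Fintype.card (PD d) + d)) :
    InfRigid G p := by
  have h1 : LinearMap.range (triv p) ≤ LinearMap.ker (rigidityMatrix G p).mulVecLin := by
    rintro _ ⟨ab, rfl⟩
    rw [LinearMap.mem_ker]
    exact triv_mem_ker G p ab
  have h2 : Module.finrank ℝ (LinearMap.range (triv p)) = Fintype.card (PD d) + d := by
    rw [LinearMap.finrank_range_of_inj (triv_injective x p hp), finrank_dom]
  have h3 := rank_add_ker G p
  have h4 := Submodule.eq_of_le_of_finrank_le h1 (by rw [h2]; omega)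
  intro q hq
  have h5 : (fun x : V × Fin d => q x.1 x.2) ∈ LinearMap.ker (rigidityMatrix G p).mulVecLin := by
    rw [LinearMap.mem_ker]
    exact (mulVec_eq_zero G p _).2 hq
  rw [← h4] at h5
  obtain ⟨ab, hab⟩ := h5
  refine ⟨skew ab.1, ab.2, skew_transpose _, ?_⟩
  intro v
  funext j
  have := congrFun hab (v, j)
  rw [triv_apply] at this
  exact this.symm

theorem genRigid_of_complex (hV : d + 1 ≤ Fintype.card V) (p0 : V → Fin d → ℂ)
    (h : ∀ q, rigidityMatrix G p0 *ᵥ q = 0 → q ∈ LinearMap.range (triv p0)) : GenRigid d G := by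
  obtain ⟨x⟩ : Nonempty (Fin (d + 1) ↪ V) := by
    rw [Function.Embedding.nonempty_iff_card_le, Fintype.card_fin]
    exact hV
  obtain ⟨p, hp1, hp2⟩ := exists_real G x x.injective p0
  refine ⟨p, infRigid_of_rank G x p hp2 ?_⟩
  have := rank_ge G p0 h
  omega

theorem rank_of_genRigid (h : GenRigid d G) : ∃ p : V → Fin d → ℝ,
    Fintype.card V * d ≤ (rigidityMatrix G p).rank + (Fintype.card (PD d) + d) := by
  obtain ⟨p, hp⟩ := h
  refine ⟨p, rank_ge G p ?_⟩
  intro q hq
  obtain ⟨A, b, hA, hb⟩ := hp (fun v j => q (v, j)) ((mulVec_eq_zero G p q).1 hq)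
  have h1 : ∀ i j, A j i = - A i j := by
    intro i j
    have := congrFun (congrFun hA i) j
    simpa using this
  refine ⟨(fun x => A x.1.1 x.1.2, b), ?_⟩
  funext ⟨v, j⟩
  rw [triv_apply, skew_eq A h1 (fun i => self_eq_neg.1 (h1 i i))]
  exact (congrFun (hb v) j).symm

theorem two_mul_card_PD (d : ℕ) : 2 * Fintype.card (PD d) + d = d * d := by
  have h1 : Fintype.card (PD d) = (Finset.univ.filter fun x : Fin d × Fin d => x.1 < x.2).card := by
    rw [Fintype.card_subtype]
  have h2 : (Finset.univ.filter fun x : Fin d × Fin d => x.2 < x.1).card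
      = (Finset.univ.filter fun x : Fin d × Fin d => x.1 < x.2).card := by
    apply Finset.card_bij (fun x _ => (x.2, x.1))
    · intro x hx
      simpa using hx
    · intro x _ y _ hxy
      ext <;> simp_all
    · intro x hx
      exact ⟨(x.2, x.1), by simpa using hx, rfl⟩
  have h3 : (Finset.univ.filter fun x : Fin d × Fin d => x.1 = x.2).card = d := by
    have : (Finset.univ.filter fun x : Fin d × Fin d => x.1 = x.2)
        = Finset.univ.image (fun i : Fin d => (i, i)) := by
      ext ⟨i, j⟩
      simp
    rw [this, Finset.card_image_of_injective _ (fun i j h => by simpa using h), Finset.card_univ,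
      Fintype.card_fin]
  have h4 : (Finset.univ : Finset (Fin d × Fin d)).card = d * d := by
    rw [Finset.card_univ, Fintype.card_prod, Fintype.card_fin]
  have h5 := Finset.card_filter_add_card_filter_not
    (s := (Finset.univ : Finset (Fin d × Fin d))) (p := fun x => x.1 < x.2)
  have h6 := Finset.card_filter_add_card_filter_not
    (s := (Finset.univ.filter fun x : Fin d × Fin d => ¬ x.1 < x.2)) (p := fun x => x.1 = x.2)
  rw [Finset.filter_filter, Finset.filter_filter] at h6
  have h7 : (Finset.univ.filter fun x : Fin d × Fin d => ¬ x.1 < x.2 ∧ x.1 = x.2)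
      = Finset.univ.filter fun x : Fin d × Fin d => x.1 = x.2 := by
    ext x
    simp only [Finset.mem_filter, Finset.mem_univ, true_and]
    constructor
    · exact fun h => h.2
    · intro h
      exact ⟨by rw [h]; exact lt_irrefl _, h⟩
  have h8 : (Finset.univ.filter fun x : Fin d × Fin d => ¬ x.1 < x.2 ∧ ¬ x.1 = x.2)
      = Finset.univ.filter fun x : Fin d × Fin d => x.2 < x.1 := by
    ext x
    simp only [Finset.mem_filter, Finset.mem_univ, true_and]
    constructor
    · intro h
      exact lt_of_le_of_ne (not_lt.1 h.1) (fun h' => h.2 h'.symm)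
    · intro h
      exact ⟨not_lt.2 h.le, fun h' => by rw [h'] at h; exact lt_irrefl _ h⟩
  rw [h7, h8, h2, h3] at h6
  omega

end real

end Pool.Agent.H913.Rig
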