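import Pool.Agent.H913.Rig.Key
import Pool.Agent.H913.Rig.Triv

set_option autoImplicit false

/-!
Fourier analysis of the motions of a circulant graph of prime order.
-/

namespace Pool.Agent.H913.Rig

open Finset

variable {p : ℕ} [Fact p.Prime] {d : ℕ}


/-- The placement `x ↦ (χ(e_j x))_j`. -/
noncomputable def pl (e : Fin d → ZMod p) : ZMod p → Fin d → ℂ := fun x j => (ZMod.stdAddChar : AddChar (ZMod p) ℂ) (e j * x)

/-- Fourier coefficients of a motion. -/
noncomputable def co (e : Fin d → ZMod p) (q : ZMod p × Fin d → ℂ) (f : ZMod p) (j : Fin d) : ℂ :=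
  ∑ x, q (x, j) * (ZMod.stdAddChar : AddChar (ZMod p) ℂ) (-((f - e j) * x))

theorem sum_chi (t : ZMod p) (a : ZMod p) :
    ∑ f : ZMod p, (ZMod.stdAddChar : AddChar (ZMod p) ℂ) ((f - a) * t) = if t = 0 then (p : ℂ) else 0 := by
  have h := AddChar.sum_mulShift t (ZMod.isPrimitive_stdAddChar p)
  rw [ZMod.card] at h
  push_cast at h
  rw [← h]
  exact (Equiv.subRight a).sum_comp (fun f => (ZMod.stdAddChar : AddChar (ZMod p) ℂ) (f * t))

theorem inversion (e : Fin d → ZMod p) (q : ZMod p × Fin d → ℂ) (x : ZMod p) (j : Fin d) :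
    ∑ f, co e q f j * (ZMod.stdAddChar : AddChar (ZMod p) ℂ) ((f - e j) * x) = p * q (x, j) := by
  have h1 : ∀ f, co e q f j * (ZMod.stdAddChar : AddChar (ZMod p) ℂ) ((f - e j) * x) = ∑ y, q (y, j) * (ZMod.stdAddChar : AddChar (ZMod p) ℂ) ((f - e j) * (x - y)) := by
    intro f
    rw [co, Finset.sum_mul]
    apply Finset.sum_congr rfl
    intro y _
    rw [mul_assoc, ← AddChar.map_add_eq_mul]
    congr 2
    ring
  rw [Finset.sum_congr rfl (fun f _ => h1 f), Finset.sum_comm]
  have h2 : ∀ y, ∑ f, q (y, j) * (ZMod.stdAddChar : AddChar (ZMod p) ℂ) ((f - e j) * (x - y)) = if x = y then p * q (y, j) else 0 := by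
    intro y
    rw [← Finset.mul_sum, sum_chi]
    by_cases h : x = y
    · rw [if_pos (sub_eq_zero.2 h), if_pos h, mul_comm]
    · rw [if_neg (fun h' => h (sub_eq_zero.1 h')), if_neg h, mul_zero]
  rw [Finset.sum_congr rfl (fun y _ => h2 y)]
  simp

theorem co_eq (e : Fin d → ZMod p) (G : SimpleGraph (ZMod p)) (S : Finset (ZMod p))
    (hS : ∀ x y, G.Adj x y ↔ y - x ∈ S) (q : ZMod p × Fin d → ℂ)
    (hq : IsMotion G (pl e) (fun x j => q (x, j))) (f s : ZMod p) (hs : s ∈ S) :
    ∑ j, co e q f j * ent f (e j) s = 0 := by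
  have h1 : ∀ x, ∑ j, (pl e x j - pl e (x + s) j) * (q (x, j) - q (x + s, j)) = 0 := by
    intro x
    exact hq x (x + s) ((hS _ _).2 (by simpa using hs))
  have h2 : ∑ x, (ZMod.stdAddChar : AddChar (ZMod p) ℂ) (-(f * x)) * ∑ j, (pl e x j - pl e (x + s) j) * (q (x, j) - q (x + s, j)) = 0 := by
    apply Finset.sum_eq_zero
    intro x _
    rw [h1, mul_zero]
  rw [← h2]
  have h3 : ∀ x, (ZMod.stdAddChar : AddChar (ZMod p) ℂ) (-(f * x)) * ∑ j, (pl e x j - pl e (x + s) j) * (q (x, j) - q (x + s, j))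
      = ∑ j, (1 - (ZMod.stdAddChar : AddChar (ZMod p) ℂ) (e j * s)) * (q (x, j) * (ZMod.stdAddChar : AddChar (ZMod p) ℂ) (-((f - e j) * x)) - q (x + s, j)
        * (ZMod.stdAddChar : AddChar (ZMod p) ℂ) (-((f - e j) * (x + s))) * (ZMod.stdAddChar : AddChar (ZMod p) ℂ) ((f - e j) * s)) := by
    intro x
    rw [Finset.mul_sum]
    apply Finset.sum_congr rfl
    intro j _
    have h4 : pl e (x + s) j = (ZMod.stdAddChar : AddChar (ZMod p) ℂ) (e j * x) * (ZMod.stdAddChar : AddChar (ZMod p) ℂ) (e j * s) := by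
      rw [pl, mul_add, AddChar.map_add_eq_mul]
    have h5 : (ZMod.stdAddChar : AddChar (ZMod p) ℂ) (-((f - e j) * x)) = (ZMod.stdAddChar : AddChar (ZMod p) ℂ) (-(f * x)) * (ZMod.stdAddChar : AddChar (ZMod p) ℂ) (e j * x) := by
      rw [← AddChar.map_add_eq_mul]
      congr 1
      ring
    have h6 : (ZMod.stdAddChar : AddChar (ZMod p) ℂ) (-((f - e j) * (x + s))) * (ZMod.stdAddChar : AddChar (ZMod p) ℂ) ((f - e j) * s) = (ZMod.stdAddChar : AddChar (ZMod p) ℂ) (-((f - e j) * x)) := by
      rw [← AddChar.map_add_eq_mul]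
      congr 1
      ring
    rw [mul_assoc (q (x + s, j)), h6, h5, h4, pl]
    ring
  rw [Finset.sum_congr rfl (fun x _ => h3 x), Finset.sum_comm]
  apply Finset.sum_congr rfl
  intro j _
  rw [← Finset.mul_sum, Finset.sum_sub_distrib]
  have h7 : ∑ x, q (x + s, j) * (ZMod.stdAddChar : AddChar (ZMod p) ℂ) (-((f - e j) * (x + s))) * (ZMod.stdAddChar : AddChar (ZMod p) ℂ) ((f - e j) * s)
      = co e q f j * (ZMod.stdAddChar : AddChar (ZMod p) ℂ) ((f - e j) * s) := by
    rw [← Finset.sum_mul, co]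
    congr 1
    exact Equiv.sum_comp (Equiv.addRight s) (fun y => q (y, j) * (ZMod.stdAddChar : AddChar (ZMod p) ℂ) (-((f - e j) * y)))
  rw [h7]
  change _ = (1 - (ZMod.stdAddChar : AddChar (ZMod p) ℂ) (e j * s)) * (co e q f j - co e q f j * (ZMod.stdAddChar : AddChar (ZMod p) ℂ) ((f - e j) * s))
  rw [ent]
  ring

/-- The coefficient function on `ZMod p`. -/
noncomputable def ex (e : Fin d → ZMod p) (c : Fin d → ℂ) (x : ZMod p) : ℂ :=
  ∑ j, if e j = x then c j else 0

omit [Fact p.Prime] in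
theorem ex_apply (e : Fin d → ZMod p) (he : Function.Injective e) (c : Fin d → ℂ) (i : Fin d) :
    ex e c (e i) = c i := by
  rw [ex, Finset.sum_eq_single i]
  · simp
  · intro j _ hj
    rw [if_neg (fun h => hj (he h))]
  · simp

omit [Fact p.Prime] in
theorem ex_eq_zero (e : Fin d → ZMod p) (c : Fin d → ℂ) (x : ZMod p) (h : ∀ j, e j ≠ x) :
    ex e c x = 0 := by
  rw [ex]
  apply Finset.sum_eq_zero
  intro j _
  rw [if_neg (h j)]

theorem ent_sym (f x s : ZMod p) : ent f (f - x) s = ent f x s := by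
  rw [ent, ent, sub_sub_cancel, mul_comm]

theorem ent_zero (f s : ZMod p) : ent f 0 s = 0 := by
  rw [ent]
  simp

theorem ent_zero' (f x : ZMod p) : ent f x 0 = 0 := by
  rw [ent]
  simp

theorem ent_self (f s : ZMod p) : ent f f s = 0 := by
  rw [ent]
  simp

theorem block (hp2 : p ≠ 2) (e : Fin d → ZMod p) (f : ZMod p) (c : Fin d → ℂ)
    (L : Finset (Fin d)) (hL : ∀ j, j ∉ L → c j = 0) (T : Finset (ZMod p))
    (hT : 2 * L.card + 1 ≤ T.card) (h : ∀ s ∈ T, ∑ j, c j * ent f (e j) s = 0) (x : ZMod p)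
    (hx0 : x ≠ 0) (hxf : x ≠ f) : ex e c x + ex e c (f - x) = 0 := by
  classical
  set C : ZMod p → ℂ := fun x => if x = 0 ∨ x = f then 0 else ex e c x + ex e c (f - x) with hC
  have hsym : ∀ x, C (f - x) = C x := by
    intro x
    simp only [hC]
    have h1 : (f - x = 0 ∨ f - x = f) ↔ (x = 0 ∨ x = f) := by
      constructor
      · rintro (h | h)
        · exact Or.inr (sub_eq_zero.1 h).symm
        · exact Or.inl (by simpa using h)
      · rintro (h | h)
        · exact Or.inr (by simp [h])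
        · exact Or.inl (by simp [h])
    by_cases h2 : x = 0 ∨ x = f
    · rw [if_pos h2, if_pos (h1.2 h2)]
    · rw [if_neg h2, if_neg (fun h => h2 (h1.1 h)), sub_sub_cancel, add_comm]
  have h0 : C 0 = 0 := by simp [hC]
  have hsum : ∀ s, ∑ x, ex e c x * ent f x s = ∑ j, c j * ent f (e j) s := by
    intro s
    simp only [ex, Finset.sum_mul]
    rw [Finset.sum_comm]
    apply Finset.sum_congr rfl
    intro j _
    rw [Finset.sum_eq_single (e j)]
    · simp
    · intro y _ hy
      rw [if_neg (fun h => hy h.symm), zero_mul]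
    · simp
  have hsum2 : ∀ s, ∑ x, ex e c (f - x) * ent f x s = ∑ j, c j * ent f (e j) s := by
    intro s
    rw [← hsum s, ← (Equiv.subLeft f).sum_comp (fun x => ex e c x * ent f x s)]
    apply Finset.sum_congr rfl
    intro x _
    rw [Equiv.subLeft_apply, ent_sym]
  have hCs : ∀ s ∈ T, ∑ x, C x * ent f x s = 0 := by
    intro s hs
    have h1 : ∀ x, C x * ent f x s = ex e c x * ent f x s + ex e c (f - x) * ent f x s := by
      intro x
      simp only [hC]
      by_cases h2 : x = 0 ∨ x = f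
      · rw [if_pos h2]
        rcases h2 with rfl | rfl
        · rw [ent_zero]
          ring
        · rw [ent_self]
          ring
      · rw [if_neg h2]
        ring
    rw [Finset.sum_congr rfl (fun x _ => h1 x), Finset.sum_add_distrib, hsum, hsum2, h s hs,
      add_zero]
  have hr : (Finset.image (fun x => x * (f - x)) (univ.filter fun x => C x ≠ 0)).card
      ≤ L.card := by
    have h1 : Finset.image (fun x => x * (f - x)) (univ.filter fun x => C x ≠ 0)
        ⊆ L.image (fun j => e j * (f - e j)) := by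
      intro w hw
      rw [Finset.mem_image] at hw
      obtain ⟨x, hx, rfl⟩ := hw
      rw [Finset.mem_filter] at hx
      have hx2 := hx.2
      simp only [hC] at hx2
      have h2 : ¬ (x = 0 ∨ x = f) := by
        intro h
        rw [if_pos h] at hx2
        exact hx2 rfl
      rw [if_neg h2] at hx2
      have h3 : ex e c x ≠ 0 ∨ ex e c (f - x) ≠ 0 := by
        by_contra h
        push Not at h
        exact hx2 (by rw [h.1, h.2, add_zero])
      have h4 : ∀ y, ex e c y ≠ 0 → ∃ j ∈ L, e j = y := by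
        intro y hy
        by_contra hcon
        push Not at hcon
        apply hy
        rw [ex]
        apply Finset.sum_eq_zero
        intro j _
        split_ifs with h'
        · exact hL j (fun hj => hcon j hj h')
        · rfl
      rw [Finset.mem_image]
      rcases h3 with h3 | h3
      · obtain ⟨j, hj, hjx⟩ := h4 _ h3
        exact ⟨j, hj, by rw [hjx]⟩
      · obtain ⟨j, hj, hjx⟩ := h4 _ h3
        refine ⟨j, hj, ?_⟩
        rw [hjx]
        ring
    exact (Finset.card_le_card h1).trans Finset.card_image_le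
  have := key p hp2 f C hsym h0 L.card hr T hT hCs x
  simp only [hC] at this
  rwa [if_neg (fun h => h.elim hx0 hxf)] at this

end Pool.Agent.H913.Rig
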