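import Mathlib

set_option autoImplicit false

/-!
# Rigidity of graphs in `ℝ^d`: definitions
-/

namespace Pool.Agent.H913.Rig

open Matrix

/-- `q` is an infinitesimal motion of the framework `(G, p)` in `K^d`: it preserves the lengths of
all edges to first order. -/
def IsMotion {K V : Type*} [Field K] {d : ℕ} (G : SimpleGraph V) (p q : V → Fin d → K) : Prop :=
  ∀ u v, G.Adj u v → ∑ j, (p u j - p v j) * (q u j - q v j) = 0

/-- The framework `(G, p)` in `ℝ^d` is infinitesimally rigid: each of its infinitesimal motions is
trivial, i.e. of the form `v ↦ A p(v) + b` with a skew-symmetric matrix `A` and a vector `b`. -/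
def InfRigid {V : Type*} {d : ℕ} (G : SimpleGraph V) (p : V → Fin d → ℝ) : Prop :=
  ∀ q : V → Fin d → ℝ, IsMotion G p q →
    ∃ (A : Matrix (Fin d) (Fin d) ℝ) (b : Fin d → ℝ), Aᵀ = -A ∧ ∀ v, q v = A *ᵥ p v + b

/-- `G` is generically rigid in `ℝ^d`: some (equivalently, almost every) realization of `G` in
`ℝ^d` is infinitesimally rigid. -/
def GenRigid {V : Type*} (d : ℕ) (G : SimpleGraph V) : Prop :=
  ∃ p : V → Fin d → ℝ, InfRigid G p

/-- The rigidity matrix of the framework `(G, p)`: one row for each edge, one column for each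
coordinate of each vertex; the row of the edge `uv` has the entries `p(u) - p(v)` at `u` and
`p(v) - p(u)` at `v`, and zeros elsewhere. -/
def rigidityMatrix {K V : Type*} [CommRing K] [DecidableEq V] {d : ℕ} (G : SimpleGraph V)
    (p : V → Fin d → K) : Matrix G.edgeSet (V × Fin d) K := fun e x =>
  Sym2.lift ⟨fun u v => (p u x.2 - p v x.2) *
    ((if x.1 = u then 1 else 0) - (if x.1 = v then 1 else 0)), fun u v => by ring⟩ (e : Sym2 V)

/-- The group of automorphisms of `G` is transitive on the vertices. -/
def VertexTransitive {V : Type*} (G : SimpleGraph V) : Prop :=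
  ∀ u v : V, ∃ φ : G ≃g G, φ u = v

end Pool.Agent.H913.Rig
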