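import Pool.Agent.H913.Rig.Rigid

set_option autoImplicit false

/-!
Circulant graphs of prime order of small degree are independent.
-/

namespace Pool.Agent.H913.Rig

open Finset

variable {p : ℕ} [Fact p.Prime] {d : ℕ}


theorem co_zero (hp2 : p ≠ 2) (e : Fin d → ZMod p) (he : Function.Injective e)
    (he0 : ∀ j, e j ≠ 0) (G : SimpleGraph (ZMod p)) (S : Finset (ZMod p))
    (hS : ∀ x y, G.Adj x y ↔ y - x ∈ S) (f : ZMod p) (L : Finset (Fin d))
    (hcard : 2 * L.card ≤ S.card) (hL1 : ∀ j ∈ L, e j ≠ f)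
    (hL2 : ∀ i ∈ L, ∀ j ∈ L, i ≠ j → e i + e j ≠ f) (q : ZMod p × Fin d → ℂ)
    (hq : Matrix.mulVec (rigidityMatrix G (pl e)) q = 0) (hq0 : ∀ j, j ∉ L → co e q f j = 0)
    (j : Fin d) : co e q f j = 0 := by
  classical
  have h0S : (0 : ZMod p) ∉ S := by
    intro h
    exact G.loopless.irrefl 0 ((hS 0 0).2 (by simpa using h))
  have hm := (mulVec_eq_zero G (pl e) q).1 hq
  by_cases hj : j ∈ L
  · have h1 := block hp2 e f (co e q f) L hq0 (insert 0 S)
      (by
        rw [Finset.card_insert_of_notMem h0S]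
        omega)
      (by
        intro s hs
        rcases Finset.mem_insert.1 hs with rfl | hs
        · apply Finset.sum_eq_zero
          intro j _
          rw [ent_zero', mul_zero]
        · exact co_eq e G S hS q hm f s hs)
      (e j) (he0 j) (hL1 j hj)
    rw [ex_apply e he] at h1
    by_cases h2 : ∃ i, e i = f - e j
    · obtain ⟨i, hi⟩ := h2
      rw [← hi, ex_apply e he] at h1
      by_cases h3 : i ∈ L
      · by_cases h4 : i = j
        · subst h4
          exact self_eq_neg.1 (eq_neg_of_add_eq_zero_left h1)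
        · exact absurd (by rw [hi]; ring) (hL2 i h3 j hj h4)
      · rw [hq0 i h3, add_zero] at h1
        exact h1
    · push Not at h2
      rw [ex_eq_zero e _ _ h2, add_zero] at h1
      exact h1
  · exact hq0 j hj

theorem rank_circ_ge (hp2 : p ≠ 2) (e : Fin d → ZMod p) (he : Function.Injective e)
    (he0 : ∀ j, e j ≠ 0) (G : SimpleGraph (ZMod p)) (S : Finset (ZMod p))
    (hS : ∀ x y, G.Adj x y ↔ y - x ∈ S) (k : ℕ) (hcard : 2 * k ≤ S.card)
    (L : ZMod p → Finset (Fin d)) (hLk : ∀ f, (L f).card = k) (hL1 : ∀ f, ∀ j ∈ L f, e j ≠ f)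
    (hL2 : ∀ f, ∀ i ∈ L f, ∀ j ∈ L f, i ≠ j → e i + e j ≠ f) :
    p * k ≤ (rigidityMatrix G (pl e)).rank := by
  classical
  have hp : p.Prime := Fact.out
  have hp0 : (p : ℂ) ≠ 0 := by exact_mod_cast hp.ne_zero
  set N := LinearMap.ker (rigidityMatrix G (pl e)).mulVecLin with hN
  let Φ : N →ₗ[ℂ] ((Σ f : ZMod p, {j : Fin d // j ∉ L f}) → ℂ) :=
    { toFun := fun q x => co e q.1 x.1 x.2.1
      map_add' := by
        intro q q'
        funext x
        simp only [co, Submodule.coe_add, Pi.add_apply, add_mul, Finset.sum_add_distrib]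
      map_smul' := by
        intro c q
        funext x
        simp only [co, Submodule.coe_smul, Pi.smul_apply, smul_eq_mul, mul_assoc, Finset.mul_sum,
          RingHom.id_apply] }
  have hΦ : Function.Injective Φ := by
    rw [injective_iff_map_eq_zero]
    rintro ⟨q, hq⟩ h
    have hq' : Matrix.mulVec (rigidityMatrix G (pl e)) q = 0 := by
      simpa [hN] using hq
    have h1 : ∀ f j, co e q f j = 0 := by
      intro f j
      apply co_zero hp2 e he he0 G S hS f (L f) (by rw [hLk]; exact hcard) (hL1 f) (hL2 f) q hq'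
      intro j hj
      exact congrFun h ⟨f, ⟨j, hj⟩⟩
    apply Subtype.ext
    funext ⟨x, j⟩
    have h2 := inversion e q x j
    rw [Finset.sum_eq_zero (fun f _ => by rw [h1, zero_mul])] at h2
    rcases mul_eq_zero.1 h2.symm with h3 | h3
    · exact absurd h3 hp0
    · exact h3
  have h1 := LinearMap.finrank_le_finrank_of_injective hΦ
  rw [Module.finrank_fintype_fun_eq_card, Fintype.card_sigma] at h1
  have h2 : ∀ f : ZMod p, Fintype.card {j : Fin d // j ∉ L f} = d - k := by
    intro f
    rw [Fintype.card_subtype_compl, Fintype.card_fin, Fintype.card_coe, hLk]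
  rw [Finset.sum_congr rfl (fun f _ => h2 f), Finset.sum_const, Finset.card_univ, ZMod.card,
    smul_eq_mul] at h1
  have h3 := rank_add_ker G (pl e)
  rw [ZMod.card, ← hN] at h3
  have h4 : k ≤ d := by
    have := Finset.card_le_univ (L 0)
    rwa [hLk, Fintype.card_fin] at this
  have h5 : p * (d - k) + p * k = p * d := by
    rw [← mul_add]
    congr 1
    omega
  omega

/-- A weak Sidon family: `0, e_1, …, e_d` have distinct sums of pairs. -/
def WS (e : Fin d → ZMod p) : Prop :=
  (∀ i j a, i ≠ j → e i + e j ≠ e a) ∧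
    ∀ i j a b, i ≠ j → a ≠ b → e i + e j = e a + e b → (i = a ∨ i = b)

theorem rank_circ_of_ws (hp2 : p ≠ 2) (e : Fin d → ZMod p) (he : Function.Injective e)
    (he0 : ∀ j, e j ≠ 0) (hws : WS e) (G : SimpleGraph (ZMod p)) (S : Finset (ZMod p))
    (hS : ∀ x y, G.Adj x y ↔ y - x ∈ S) (k : ℕ) (hk : k < d) (hcard : 2 * k ≤ S.card) :
    p * k ≤ (rigidityMatrix G (pl e)).rank := by
  classical
  have h1 : ∀ f : ZMod p, ∃ L : Finset (Fin d), L.card = k ∧ (∀ j ∈ L, e j ≠ f) ∧
      ∀ i ∈ L, ∀ j ∈ L, i ≠ j → e i + e j ≠ f := by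
    intro f
    have h2 : ∃ j0 : Fin d, (∀ j, j ≠ j0 → e j ≠ f) ∧
        ∀ i j, i ≠ j0 → j ≠ j0 → i ≠ j → e i + e j ≠ f := by
      by_cases h3 : ∃ a, e a = f
      · obtain ⟨a, rfl⟩ := h3
        refine ⟨a, fun j hj h => hj (he h), fun i j _ _ hij => hws.1 i j a hij⟩
      · push Not at h3
        by_cases h4 : ∃ a b, a ≠ b ∧ e a + e b = f
        · obtain ⟨a, b, hab, rfl⟩ := h4
          refine ⟨a, fun j _ => h3 j, fun i j hi hj hij h => ?_⟩
          rcases hws.2 i j a b hij hab h with h5 | h5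
          · exact hi h5
          · rcases hws.2 j i a b hij.symm hab (by rw [add_comm]; exact h) with h6 | h6
            · exact hj h6
            · exact hij (h5.trans h6.symm)
        · push Not at h4
          exact ⟨⟨0, by omega⟩, fun j _ => h3 j, fun i j _ _ hij => h4 i j hij⟩
    obtain ⟨j0, hj1, hj2⟩ := h2
    obtain ⟨L, hL, hLk⟩ := Finset.exists_subset_card_eq
      (s := (univ : Finset (Fin d)).erase j0) (n := k) (by
        rw [Finset.card_erase_of_mem (mem_univ _), Finset.card_univ, Fintype.card_fin]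
        omega)
    refine ⟨L, hLk, fun j hj => hj1 j (Finset.ne_of_mem_erase (hL hj)), fun i hi j hj hij =>
      hj2 i j (Finset.ne_of_mem_erase (hL hi)) (Finset.ne_of_mem_erase (hL hj)) hij⟩
  choose L hL using h1
  exact rank_circ_ge hp2 e he he0 G S hS k hcard L (fun f => (hL f).1) (fun f => (hL f).2.1)
    (fun f => (hL f).2.2)

end Pool.Agent.H913.Rig
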