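import Pool.Agent.H913.Rig.Val

set_option autoImplicit false

/-!
A Chebotarev type lemma.
-/

namespace Pool.Agent.H913.Rig

open Polynomial Finset

/-- The entry `(χ(e s) - 1) (χ((f - e) s) - 1)`. -/
noncomputable def ent {p : ℕ} [Fact p.Prime] (f e s : ZMod p) : ℂ :=
  (ZMod.stdAddChar (e * s) - 1) * (ZMod.stdAddChar ((f - e) * s) - 1)

theorem chi_pow {p : ℕ} [Fact p.Prime] (s : ZMod p) (n : ℕ) :
    (ZMod.stdAddChar s : ℂ) ^ n = ZMod.stdAddChar ((n : ZMod p) * s) := by
  rw [← AddChar.map_nsmul_eq_pow, nsmul_eq_mul]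

theorem chi_pow_val {p : ℕ} [Fact p.Prime] (s e : ZMod p) :
    (ZMod.stdAddChar s : ℂ) ^ e.val = ZMod.stdAddChar (e * s) := by
  rw [chi_pow, ZMod.natCast_zmod_val]

theorem chi_mem {p : ℕ} [Fact p.Prime] (A : ValuationSubring ℂ) (s : ZMod p) :
    (ZMod.stdAddChar s : ℂ) ∈ A := by
  have hp : p.Prime := Fact.out
  have h1 : (ZMod.stdAddChar s : ℂ) ^ p = 1 := by
    rw [chi_pow]
    simp
  rw [← ValuationSubring.valuation_le_one_iff]
  by_contra h
  rw [not_le] at h
  have h2 : 1 < A.valuation (ZMod.stdAddChar s : ℂ) ^ p := one_lt_pow₀ h hp.ne_zero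
  rw [← map_pow, h1, map_one] at h2
  exact lt_irrefl _ h2

theorem key (p : ℕ) [Fact p.Prime] (hp2 : p ≠ 2) (f : ZMod p) (c : ZMod p → ℂ)
    (hsym : ∀ e, c (f - e) = c e) (h0 : c 0 = 0) (r : ℕ)
    (hr : (Finset.image (fun e => e * (f - e)) (univ.filter fun e => c e ≠ 0)).card ≤ r)
    (T : Finset (ZMod p)) (hT : 2 * r + 1 ≤ T.card)
    (h : ∀ s ∈ T, ∑ e, c e * ent f e s = 0) : ∀ e, c e = 0 := by
  classical
  have hp : p.Prime := Fact.out
  by_contra hne
  push Not at hne
  obtain ⟨e1, he1⟩ := hne
  obtain ⟨A, hA⟩ := exists_val p hp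
  obtain ⟨e0, -, he0⟩ := Finset.exists_max_image univ (fun e => A.valuation (c e)) ⟨e1, mem_univ _⟩
  have hc0 : c e0 ≠ 0 := by
    intro h'
    have := he0 e1 (mem_univ _)
    rw [h', map_zero] at this
    have h2 := le_antisymm this zero_le
    rw [Valuation.zero_iff] at h2
    exact he1 h2
  have hcA : ∀ e, c e / c e0 ∈ A := by
    intro e
    rw [← ValuationSubring.valuation_le_one_iff, map_div₀]
    exact div_le_one_of_le₀ (he0 e (mem_univ _)) zero_le
  set a : ZMod p → A := fun e => ⟨c e / c e0, hcA e⟩ with ha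
  set g : ZMod p → A := fun s => ⟨ZMod.stdAddChar s, chi_mem A s⟩ with hg
  have hginj : Function.Injective g := by
    intro x y hxy
    have h1 : (ZMod.stdAddChar x : ℂ) = ZMod.stdAddChar y :=
      congrArg (fun z : A => (z : ℂ)) hxy
    exact ZMod.injective_stdAddChar h1
  -- the residue field
  set k := IsLocalRing.ResidueField A with hk
  set res : A →+* k := IsLocalRing.residue A with hres
  have hpk : (p : k) = 0 := by
    have : res ((p : ℕ) : A) = 0 := by
      rw [hres, IsLocalRing.residue_eq_zero_iff]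
      exact hA
    simpa using this
  have : CharP k p := (CharP.charP_iff_prime_eq_zero hp).2 hpk
  have hg1 : ∀ s, res (g s) = 1 := by
    intro s
    have h1 : g s ^ p = 1 := by
      apply Subtype.ext
      change (ZMod.stdAddChar s : ℂ) ^ p = 1
      rw [chi_pow]
      simp
    have h2 : (res (g s)) ^ p = 1 := by
      rw [← map_pow, h1, map_one]
    have h3 : (res (g s) - 1) ^ p = 0 := by
      rw [sub_pow_char, h2]
      simp
    have h4 := pow_eq_zero_iff hp.ne_zero |>.1 h3
    exact sub_eq_zero.1 h4
  -- the polynomial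
  set P : A[X] := ∑ e, C (a e) * ((X ^ e.val - 1) * (X ^ (f - e).val - 1)) with hP
  have hPev : ∀ s ∈ T, P.eval (g s) = 0 := by
    intro s hs
    apply Subtype.ext
    rw [hP, eval_finsetSum]
    have h1 : ((∑ e, (C (a e) * ((X ^ e.val - 1) * (X ^ (f - e).val - 1)) : A[X]).eval (g s) : A) : ℂ)
        = ∑ e, (c e / c e0) * ent f e s := by
      push_cast
      apply Finset.sum_congr rfl
      intro e _
      simp only [eval_mul, eval_C, eval_sub, eval_pow, eval_X, eval_one]
      change (c e / c e0) * (((ZMod.stdAddChar s : ℂ) ^ e.val - 1) *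
        ((ZMod.stdAddChar s : ℂ) ^ (f - e).val - 1)) = _
      rw [chi_pow_val, chi_pow_val, ent]
    rw [h1]
    have h2 : ∑ e, (c e / c e0) * ent f e s = (∑ e, c e * ent f e s) / c e0 := by
      rw [Finset.sum_div]
      apply Finset.sum_congr rfl
      intro e _
      ring
    rw [h2, h s hs]
    simp
  have hdvd : (X - 1 : k[X]) ^ T.card ∣ P.map res := by
    by_cases hP0 : P = 0
    · rw [hP0]
      simp
    · have h1 : T.val.map g ≤ P.roots := by
        rw [Multiset.le_iff_subset (T.nodup.map hginj)]
        intro x hx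
        rw [Multiset.mem_map] at hx
        obtain ⟨s, hs, rfl⟩ := hx
        rw [Polynomial.mem_roots hP0]
        exact hPev s hs
      have h2 : ((T.val.map g).map fun x => X - C x).prod ∣ P :=
        (Multiset.prod_dvd_prod_of_le (Multiset.map_le_map h1)).trans
          (Polynomial.prod_multiset_X_sub_C_dvd P)
      have h3 := Polynomial.map_dvd res h2
      have h4 : (((T.val.map g).map fun x => X - C x).prod).map res = (X - 1 : k[X]) ^ T.card := by
        rw [Multiset.map_map]
        change ((∏ s ∈ T, (X - C (g s))) : A[X]).map res = _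
        rw [Polynomial.map_prod, Finset.prod_congr rfl (g := fun _ => (X - 1 : k[X]))]
        · rw [Finset.prod_const]
        · intro s _
          rw [Polynomial.map_sub, map_X, map_C, hg1, C_1]
      rwa [h4] at h3
  -- the classes
  set ι : ZMod p →+* k := ZMod.castHom (dvd_refl p) k with hι
  have hιinj : Function.Injective ι := RingHom.injective ι
  have hval : ∀ e : ZMod p, ((e.val : ℕ) : k) = ι e := by
    intro e
    rw [hι, ZMod.castHom_apply, ZMod.natCast_val]
  set w : ZMod p → ZMod p := fun e => e * (f - e) with hw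
  set W : Finset (ZMod p) := Finset.image w (univ.filter fun e => c e ≠ 0) with hW
  set w0 := w e0 with hw0
  have hw0W : w0 ∈ W := Finset.mem_image_of_mem _ (by simp [hc0])
  set Q : k[X] := X * (X - C (ι f)) * ∏ v ∈ W.erase w0, (X ^ 2 - C (ι f) * X + C (ι v)) with hQ
  have hQdeg : Q.degree < (T.card : WithBot ℕ) := by
    have h1 : Q.natDegree ≤ 2 * r := by
      have h2 : (∏ v ∈ W.erase w0, (X ^ 2 - C (ι f) * X + C (ι v)) : k[X]).natDegree
          ≤ ∑ v ∈ W.erase w0, 2 := by
        refine (Polynomial.natDegree_prod_le _ _).trans ?_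
        apply Finset.sum_le_sum
        intro v _
        compute_degree
      have h3 : (X * (X - C (ι f)) : k[X]).natDegree ≤ 2 := by
        compute_degree
      have h4 : (W.erase w0).card = W.card - 1 := Finset.card_erase_of_mem hw0W
      have h5 : 0 < W.card := Finset.card_pos.2 ⟨w0, hw0W⟩
      have h6 := Polynomial.natDegree_mul_le (p := (X * (X - C (ι f)) : k[X]))
        (q := ∏ v ∈ W.erase w0, (X ^ 2 - C (ι f) * X + C (ι v)))
      rw [Finset.sum_const, smul_eq_mul, h4] at h2
      rw [hQ]
      omega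
    refine lt_of_le_of_lt Polynomial.degree_le_natDegree ?_
    have : Q.natDegree < T.card := by omega
    exact_mod_cast this
  have hfn := fn_eq_zero T.card Q (P.map res) hQdeg hdvd
  -- evaluation
  have hQe : ∀ e : ZMod p, Q.eval (ι e) = - ι (w e) * ∏ v ∈ W.erase w0, ι (v - w e) := by
    intro e
    rw [hQ, eval_mul, eval_mul, eval_prod, eval_X, eval_sub, eval_X, eval_C]
    congr 1
    · rw [hw]
      simp only [map_mul, map_sub]
      ring
    · apply Finset.prod_congr rfl
      intro v _
      simp only [eval_add, eval_sub, eval_mul, eval_pow, eval_X, eval_C, hw, map_sub, map_mul]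
      ring
  have hQ0 : Q.eval 0 = 0 := by
    rw [hQ]
    simp
  have hQf : Q.eval (ι f) = 0 := by
    rw [hQ]
    simp
  have hwsym : ∀ e, w (f - e) = w e := by
    intro e
    simp only [hw]
    ring
  have hfn2 : fn Q (P.map res) = ∑ e, res (a e) * (-2 * Q.eval (ι e)) := by
    rw [hP, Polynomial.map_sum, map_sum]
    apply Finset.sum_congr rfl
    intro e _
    have h1 : ((C (a e) * ((X ^ e.val - 1) * (X ^ (f - e).val - 1)) : A[X]).map res)
        = C (res (a e)) * X ^ (e.val + (f - e).val) - C (res (a e)) * X ^ e.val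
          - C (res (a e)) * X ^ (f - e).val + C (res (a e)) * X ^ 0 := by
      simp only [Polynomial.map_mul, Polynomial.map_sub, Polynomial.map_pow, map_C, map_X,
        Polynomial.map_one, pow_add, pow_zero]
      ring
    rw [h1]
    simp only [map_add, map_sub, fn_monomial]
    push_cast
    rw [hval, hval, ← map_add]
    rw [show e + (f - e) = f by ring, hQf, hQ0, hQe (f - e), hwsym, ← hQe e]
    ring
  rw [hfn2] at hfn
  have ha0 : a e0 = 1 := by
    apply Subtype.ext
    change c e0 / c e0 = 1
    exact div_self hc0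
  have hsum : ∑ e, res (a e) * (-2 * Q.eval (ι e))
      = ((({e0, f - e0} : Finset (ZMod p)).card : ℕ) : k) * (-2 * Q.eval (ι e0)) := by
    rw [← Finset.sum_subset (Finset.subset_univ ({e0, f - e0} : Finset (ZMod p)))]
    · rw [Finset.sum_congr rfl (g := fun _ => -2 * Q.eval (ι e0))]
      · rw [Finset.sum_const, nsmul_eq_mul]
      · intro e he
        rw [Finset.mem_insert, Finset.mem_singleton] at he
        rcases he with rfl | rfl
        · rw [ha0, map_one, one_mul]
        · have h1 : a (f - e0) = 1 := by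
            apply Subtype.ext
            change c (f - e0) / c e0 = 1
            rw [hsym]
            exact div_self hc0
          rw [h1, map_one, one_mul, hQe (f - e0), hwsym, ← hQe e0]
    · intro e _ he
      rw [Finset.mem_insert, Finset.mem_singleton, not_or] at he
      by_cases hce : c e = 0
      · have h1 : a e = 0 := by
          apply Subtype.ext
          change c e / c e0 = 0
          rw [hce, zero_div]
        rw [h1, map_zero, zero_mul]
      · have hne : w e ≠ w0 := by
          intro h1
          have h2 : (e - e0) * (f - e0 - e) = 0 := by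
            have h3 : e * (f - e) = e0 * (f - e0) := h1
            linear_combination h3
          rcases mul_eq_zero.1 h2 with h3 | h3
          · exact he.1 (sub_eq_zero.1 h3)
          · exact he.2 (sub_eq_zero.1 h3).symm
        have h1 : w e ∈ W.erase w0 := Finset.mem_erase.2 ⟨hne,
          Finset.mem_image_of_mem _ (by simp [hce])⟩
        rw [hQe, Finset.prod_eq_zero h1 (by simp)]
        ring
  rw [hsum] at hfn
  have he00 : e0 ≠ 0 := by
    rintro rfl
    exact hc0 h0
  have hef : f - e0 ≠ 0 := by
    intro h1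
    have h2 := hsym e0
    rw [h1, h0] at h2
    exact hc0 h2.symm
  have hQne : Q.eval (ι e0) ≠ 0 := by
    rw [hQe]
    apply mul_ne_zero
    · rw [neg_ne_zero, Ne, map_eq_zero_iff ι hιinj]
      exact mul_ne_zero he00 hef
    · rw [Finset.prod_ne_zero_iff]
      intro v hv
      rw [Ne, map_eq_zero_iff ι hιinj, sub_eq_zero]
      exact (Finset.mem_erase.1 hv).1
  have h2k : (2 : k) ≠ 0 := by
    intro h1
    have h2 : ((2 : ℕ) : k) = 0 := by exact_mod_cast h1
    rw [CharP.cast_eq_zero_iff k p] at h2
    exact hp2 ((Nat.prime_dvd_prime_iff_eq hp Nat.prime_two).1 h2)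
  have hcard : ((({e0, f - e0} : Finset (ZMod p)).card : ℕ) : k) ≠ 0 := by
    by_cases h1 : e0 = f - e0
    · rw [← h1]
      simp
    · rw [Finset.card_pair h1]
      exact_mod_cast h2k
  rcases mul_eq_zero.1 hfn with h1 | h1
  · exact hcard h1
  · rcases mul_eq_zero.1 h1 with h2 | h2
    · exact h2k (neg_eq_zero.1 h2)
    · exact hQne h2

end Pool.Agent.H913.Rig
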