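import Pool.Agent.H913.Rig.Indep

set_option autoImplicit false

/-!
Weak Sidon families modulo a prime.
-/

namespace Pool.Agent.H913.Rig

open Finset

variable {p : ℕ} [Fact p.Prime] {d : ℕ}

/-- Weak Sidon sets. -/
def WSet (E : Finset (ZMod p)) : Prop :=
  ∀ a ∈ E, ∀ b ∈ E, ∀ c ∈ E, ∀ c' ∈ E, a ≠ b → c ≠ c' → a + b = c + c' → a = c ∨ a = c'

theorem wset_insert (E : Finset (ZMod p)) (hE : WSet E) (x : ZMod p)
    (hx : ∀ a ∈ E, ∀ b ∈ E, ∀ c ∈ E, x ≠ a + b - c) : WSet (insert x E) := by
  intro a ha0 b hb0 c hc0 c' hc0' hab hcc h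
  rcases Finset.mem_insert.1 ha0 with rfl | ha
  · rcases Finset.mem_insert.1 hb0 with rfl | hb
    · exact absurd rfl hab
    · rcases Finset.mem_insert.1 hc0 with rfl | hc
      · exact Or.inl rfl
      · rcases Finset.mem_insert.1 hc0' with rfl | hc'
        · exact Or.inr rfl
        · exact absurd (by rw [← h]; ring) (hx c hc c' hc' b hb)
  · rcases Finset.mem_insert.1 hb0 with rfl | hb
    · rcases Finset.mem_insert.1 hc0 with rfl | hc
      · right
        linear_combination h
      · rcases Finset.mem_insert.1 hc0' with rfl | hc'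
        · left
          linear_combination h
        · exact absurd (by rw [← h]; ring) (hx c hc c' hc' a ha)
    · rcases Finset.mem_insert.1 hc0 with rfl | hc
      · rcases Finset.mem_insert.1 hc0' with rfl | hc'
        · exact absurd rfl hcc
        · exact absurd (by rw [h]; ring) (hx a ha b hb c' hc')
      · rcases Finset.mem_insert.1 hc0' with rfl | hc'
        · exact absurd (by rw [h]; ring) (hx a ha b hb c hc)
        · exact hE a ha b hb c hc c' hc' hab hcc h

theorem exists_wset (i : ℕ) (hi : i ^ 3 < p) : ∃ E : Finset (ZMod p), 0 ∈ E ∧ E.card = i + 1 ∧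
    WSet E := by
  classical
  induction i with
  | zero =>
    refine ⟨{0}, by simp, by simp, ?_⟩
    intro a ha b hb _ _ _ _ hab
    rw [Finset.mem_singleton] at ha hb
    exact absurd (ha.trans hb.symm) hab
  | succ i ih =>
    obtain ⟨E, h0, hcard, hE⟩ := ih (lt_of_le_of_lt (Nat.pow_le_pow_left (Nat.le_succ i) 3) hi)
    have h1 : ∃ x : ZMod p, x ∉ (E ×ˢ E ×ˢ E).image (fun y => y.1 + y.2.1 - y.2.2) := by
      by_contra hcon
      push Not at hcon
      have h2 : (univ : Finset (ZMod p)) ⊆ (E ×ˢ E ×ˢ E).image (fun y => y.1 + y.2.1 - y.2.2) :=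
        fun x _ => hcon x
      have h3 := (Finset.card_le_card h2).trans Finset.card_image_le
      rw [Finset.card_univ, ZMod.card, Finset.card_product, Finset.card_product, hcard] at h3
      have h4 : (i + 1) * ((i + 1) * (i + 1)) = (i + 1) ^ 3 := by ring
      omega
    obtain ⟨x, hx⟩ := h1
    have hx' : ∀ a ∈ E, ∀ b ∈ E, ∀ c ∈ E, x ≠ a + b - c := by
      intro a ha b hb c hc h
      apply hx
      rw [Finset.mem_image]
      exact ⟨(a, b, c), by simp [ha, hb, hc], h.symm⟩
    have hxE : x ∉ E := by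
      intro h
      exact hx' x h x h x h (by ring)
    refine ⟨insert x E, Finset.mem_insert_of_mem h0, ?_, wset_insert E hE x hx'⟩
    rw [Finset.card_insert_of_notMem hxE, hcard]

theorem exists_ws (h : d ^ 3 < p) : ∃ e : Fin d → ZMod p, Function.Injective e ∧
    (∀ j, e j ≠ 0) ∧ WS e := by
  classical
  obtain ⟨E, h0, hcard, hE⟩ := exists_wset d h
  have h1 : (E.erase 0).card = d := by
    rw [Finset.card_erase_of_mem h0, hcard]
    rfl
  set e : Fin d → ZMod p := fun i => ((E.erase 0).equivFinOfCardEq h1).symm i with he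
  have heE : ∀ i, e i ∈ E.erase 0 := fun i => (((E.erase 0).equivFinOfCardEq h1).symm i).2
  have hinj : Function.Injective e := by
    intro i j hij
    exact ((E.erase 0).equivFinOfCardEq h1).symm.injective (Subtype.ext hij)
  have h00 : ∀ j, e j ≠ 0 := fun j => Finset.ne_of_mem_erase (heE j)
  refine ⟨e, hinj, h00, ?_, ?_⟩
  · intro i j a hij hcon
    have h2 := hE (e i) (Finset.mem_of_mem_erase (heE i)) (e j) (Finset.mem_of_mem_erase (heE j))
      0 h0 (e a) (Finset.mem_of_mem_erase (heE a)) (fun h => hij (hinj h)) (h00 a).symm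
      (by rw [hcon, zero_add])
    rcases h2 with h2 | h2
    · exact h00 i h2
    · rw [h2] at hcon
      exact h00 j (by simpa using hcon)
  · intro i j a b hij hab hcon
    have h2 := hE (e i) (Finset.mem_of_mem_erase (heE i)) (e j) (Finset.mem_of_mem_erase (heE j))
      (e a) (Finset.mem_of_mem_erase (heE a)) (e b) (Finset.mem_of_mem_erase (heE b))
      (fun h => hij (hinj h)) (fun h => hab (hinj h)) hcon
    rcases h2 with h2 | h2
    · exact Or.inl (hinj h2)
    · exact Or.inr (hinj h2)

theorem exists_ws_three (h : 7 ≤ p) : ∃ e : Fin 3 → ZMod p, Function.Injective e ∧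
    (∀ j, e j ≠ 0) ∧ WS e := by
  set n : Fin 3 → ℕ := ![1, 2, 4] with hn
  have hcast : ∀ a b : ℕ, a < 7 → b < 7 → ((a : ℕ) : ZMod p) = (b : ℕ) → a = b := by
    intro a b ha hb hab
    rw [ZMod.natCast_eq_natCast_iff'] at hab
    rwa [Nat.mod_eq_of_lt (by omega), Nat.mod_eq_of_lt (by omega)] at hab
  have h1 : ∀ i : Fin 3, n i < 7 := by decide
  have h2 : ∀ i j : Fin 3, i ≠ j → n i + n j < 7 := by decide
  refine ⟨fun i => ((n i : ℕ) : ZMod p), ?_, ?_, ?_, ?_⟩
  · intro i j hij
    have := hcast _ _ (h1 i) (h1 j) hij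
    clear hij
    revert i j
    decide
  · intro j hj
    have h3 := hcast (n j) 0 (h1 j) (by norm_num) (by simpa using hj)
    clear hj
    revert j
    decide
  · intro i j a hij hcon
    have h3 := hcast (n i + n j) (n a) (h2 i j hij) (h1 a) (by push_cast; exact hcon)
    clear hcon
    revert i j a
    decide
  · intro i j a b hij hab hcon
    have h3 := hcast (n i + n j) (n a + n b) (h2 i j hij) (h2 a b hab) (by push_cast; exact hcon)
    clear hcon
    revert i j a b
    decide

end Pool.Agent.H913.Rig
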