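import Pool.Agent.H913.Rig.Triv

set_option autoImplicit false

/-!
Upper bounds for the rank and invariance under isomorphism.
-/

namespace Pool.Agent.H913.Rig

open Matrix

section

variable {V : Type*} [DecidableEq V] [Fintype V] {d : ℕ} (G : SimpleGraph V)

theorem rank_le_edges [DecidableRel G.Adj] {K : Type*} [Field K] (p : V → Fin d → K) :
    (rigidityMatrix G p).rank ≤ G.edgeFinset.card := by
  have h := Matrix.rank_le_card_height (rigidityMatrix G p)
  rwa [SimpleGraph.edgeFinset_card]

theorem rank_add_le (hV : d + 1 ≤ Fintype.card V) (p : V → Fin d → ℝ) :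
    (rigidityMatrix G p).rank + (Fintype.card (PD d) + d) ≤ Fintype.card V * d := by
  obtain ⟨x⟩ : Nonempty (Fin (d + 1) ↪ V) := by
    rw [Function.Embedding.nonempty_iff_card_le, Fintype.card_fin]
    exact hV
  obtain ⟨p', hp1, hp2⟩ := exists_real G x x.injective p
  have h1 : LinearMap.range (triv p') ≤ LinearMap.ker (rigidityMatrix G p').mulVecLin := by
    rintro _ ⟨ab, rfl⟩
    rw [LinearMap.mem_ker]
    exact triv_mem_ker G p' ab
  have h2 : Module.finrank ℝ (LinearMap.range (triv p')) = Fintype.card (PD d) + d := by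
    rw [LinearMap.finrank_range_of_inj (triv_injective x p' hp2), finrank_dom]
  have h3 := rank_add_ker G p'
  have h4 := Submodule.finrank_mono h1
  omega

end

section transport

variable {V W : Type*} [DecidableEq V] [Fintype V] [DecidableEq W] [Fintype W] {d : ℕ}

theorem rank_comap_le {K : Type*} [Field K] (G : SimpleGraph V) (φ : W ≃ V) (p : V → Fin d → K) :
    (rigidityMatrix (G.comap φ) (p ∘ φ)).rank ≤ (rigidityMatrix G p).rank := by
  have h1 := rank_add_ker G p
  have h2 := rank_add_ker (G.comap φ) (p ∘ φ)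
  have h3 : Fintype.card W = Fintype.card V := Fintype.card_congr φ
  let Φ : LinearMap.ker (rigidityMatrix G p).mulVecLin →ₗ[K]
      LinearMap.ker (rigidityMatrix (G.comap φ) (p ∘ φ)).mulVecLin :=
    { toFun := fun q => ⟨fun x => q.1 (φ x.1, x.2), by
        rw [LinearMap.mem_ker]
        apply (mulVec_eq_zero (G.comap φ) (p ∘ φ) _).2
        intro u v huv
        exact (mulVec_eq_zero G p q.1).1 (LinearMap.mem_ker.1 q.2) (φ u) (φ v) huv⟩
      map_add' := fun _ _ => rfl
      map_smul' := fun _ _ => rfl }
  have hΦ : Function.Injective Φ := by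
    intro q q' h
    apply Subtype.ext
    funext ⟨v, j⟩
    have := congrFun (congrArg Subtype.val h) (φ.symm v, j)
    simpa [Φ] using this
  have h4 := LinearMap.finrank_le_finrank_of_injective hΦ
  rw [h3] at h2
  omega

theorem genRigid_of_comap (G : SimpleGraph V) (φ : W ≃ V) (h : GenRigid d (G.comap φ)) :
    GenRigid d G := by
  obtain ⟨p, hp⟩ := h
  refine ⟨p ∘ φ.symm, ?_⟩
  intro q hq
  obtain ⟨A, b, hA, hb⟩ := hp (q ∘ φ) (by
    intro u v huv
    have := hq (φ u) (φ v) huv
    simpa using this)
  refine ⟨A, b, hA, fun v => ?_⟩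
  have := hb (φ.symm v)
  simpa using this

end transport

end Pool.Agent.H913.Rig
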