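import Pool.Agent.H913.Rig.VT
import Pool.Agent.H913.Rig.Sidon
import Pool.Agent.H913.Rig.Upper

set_option autoImplicit false

/-!
Vertex-transitive graphs of prime order: rigidity and generic rank.
-/

namespace Pool.Agent.H913.Rig

open Finset

section

variable {V : Type} [Fintype V] [DecidableEq V] (G : SimpleGraph V) [DecidableRel G.Adj]
  {p : ℕ} [Fact p.Prime] (ψ : ZMod p ≃ V) (S : Finset (ZMod p))
  (hS : ∀ x y, G.Adj (ψ x) (ψ y) ↔ y - x ∈ S)

include hS

theorem degree_eq (v : V) : G.degree v = S.card := by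
  obtain ⟨x, rfl⟩ := ψ.surjective v
  have h1 : G.neighborFinset (ψ x) = S.image (fun s => ψ (x + s)) := by
    ext w
    obtain ⟨y, rfl⟩ := ψ.surjective w
    rw [SimpleGraph.mem_neighborFinset, hS, Finset.mem_image]
    constructor
    · intro h
      exact ⟨y - x, h, by simp⟩
    · rintro ⟨s, hs, h⟩
      rw [← ψ.injective h]
      simpa using hs
  rw [← SimpleGraph.card_neighborFinset_eq_degree, h1, Finset.card_image_of_injective]
  intro a b hab
  exact add_left_cancel (ψ.injective hab)

theorem two_mul_edges : 2 * G.edgeFinset.card = p * S.card := by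
  rw [← SimpleGraph.sum_degrees_eq_twice_card_edges, Finset.sum_congr rfl
    (fun v _ => degree_eq G ψ S hS v), Finset.sum_const, Finset.card_univ,
    ← Fintype.card_congr ψ, ZMod.card, smul_eq_mul]

omit [Fintype V] [DecidableEq V] [DecidableRel G.Adj] in
theorem even_card (hp2 : p ≠ 2) : Even S.card := by
  have hp : p.Prime := Fact.out
  have hneg : ∀ s ∈ S, -s ∈ S := by
    intro s hs
    have h1 : G.Adj (ψ 0) (ψ s) := (hS _ _).2 (by simpa using hs)
    have h2 := (hS _ _).1 h1.symm
    simpa using h2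
  have h0 : (0 : ZMod p) ∉ S := by
    intro h
    exact G.loopless.irrefl (ψ 0) ((hS 0 0).2 (by simpa using h))
  have h1 : (∑ s ∈ S, (1 : ZMod 2)) = 0 := by
    apply Finset.sum_involution (fun s _ => -s)
    · intro a _
      decide
    · intro a ha _ h
      have h2 : (2 : ZMod p) * a = 0 := by linear_combination (-1 : ZMod p) * h
      rcases mul_eq_zero.1 h2 with h3 | h3
      · have h4 : ((2 : ℕ) : ZMod p) = 0 := by exact_mod_cast h3
        rw [ZMod.natCast_eq_zero_iff] at h4
        exact hp2 ((Nat.prime_dvd_prime_iff_eq hp Nat.prime_two).1 h4)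
      · exact h0 (h3 ▸ ha)
    · intro a _
      exact neg_neg a
    · intro a ha
      exact hneg a ha
  rw [Finset.sum_const, nsmul_eq_mul, mul_one, ZMod.natCast_eq_zero_iff] at h1
  exact even_iff_two_dvd.2 h1

omit [DecidableRel G.Adj] in
theorem rigid_of_card {d : ℕ} (h : 2 * d ≤ S.card) : GenRigid d G := by
  apply genRigid_of_comap G ψ
  exact circ_rigid (G.comap ψ) S (fun x y => hS x y) h

end

theorem rigid_of_degree (d : ℕ) (V : Type) [Fintype V] (G : SimpleGraph V) [DecidableRel G.Adj]
    (hp : (Fintype.card V).Prime) (hG : VertexTransitive G) (hd : ∀ v, 2 * d ≤ G.degree v) :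
    GenRigid d G := by
  classical
  have : Fact (Fintype.card V).Prime := ⟨hp⟩
  obtain ⟨ψ, S, hS⟩ := exists_circ G (Fintype.card V) rfl hG
  apply rigid_of_card G ψ S hS
  rw [← degree_eq G ψ S hS (ψ 0)]
  exact hd _

theorem rigid_iff (d : ℕ) (V : Type) [Fintype V] (G : SimpleGraph V) [DecidableRel G.Adj]
    (hp : (Fintype.card V).Prime) (hG : VertexTransitive G) (hp2 : 2 < Fintype.card V)
    (hpd : d * (d + 1) < 2 * Fintype.card V) :
    GenRigid d G ↔ ∀ v, 2 * d ≤ G.degree v := by
  classical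
  refine ⟨?_, rigid_of_degree d V G hp hG⟩
  intro h v
  have : Fact (Fintype.card V).Prime := ⟨hp⟩
  obtain ⟨ψ, S, hS⟩ := exists_circ G (Fintype.card V) rfl hG
  rw [degree_eq G ψ S hS]
  by_contra hcon
  push Not at hcon
  obtain ⟨k, hk⟩ := even_card G ψ S hS hp2.ne'
  obtain ⟨q, hq⟩ := rank_of_genRigid G h
  have h1 := rank_le_edges G q
  have h2 := two_mul_edges G ψ S hS
  have h3 := two_mul_card_PD d
  obtain ⟨e, rfl⟩ : ∃ e, d = k + 1 + e := ⟨d - (k + 1), by omega⟩
  rw [hk] at h2
  nlinarith

theorem rank_formula (d : ℕ) (V : Type) [Fintype V] [DecidableEq V] (G : SimpleGraph V)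
    [DecidableRel G.Adj] (hp : (Fintype.card V).Prime) (hG : VertexTransitive G)
    (hp2 : 2 < Fintype.card V) (hd : (d = 3 ∧ 7 ≤ Fintype.card V) ∨ d ^ 3 < Fintype.card V) :
    IsGreatest {r | ∃ q : V → Fin d → ℝ, (rigidityMatrix G q).rank = r}
      (min G.edgeFinset.card (d * Fintype.card V - d * (d + 1) / 2)) := by
  have : Fact (Fintype.card V).Prime := ⟨hp⟩
  obtain ⟨ψ, S, hS⟩ := exists_circ G (Fintype.card V) rfl hG
  have hPD := two_mul_card_PD d
  have hPD2 : d * (d + 1) / 2 = Fintype.card (PD d) + d := by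
    have : d * (d + 1) = 2 * (Fintype.card (PD d) + d) := by
      rw [mul_add, mul_add, ← hPD]
      ring
    omega
  have hdn : d + 1 ≤ Fintype.card V := by
    rcases hd with ⟨rfl, h⟩ | h
    · omega
    · have : d ≤ d ^ 3 := Nat.le_self_pow (by norm_num) d
      omega
  have hup : ∀ q : V → Fin d → ℝ, (rigidityMatrix G q).rank
      ≤ min G.edgeFinset.card (d * Fintype.card V - d * (d + 1) / 2) := by
    intro q
    rw [le_min_iff]
    refine ⟨rank_le_edges G q, ?_⟩
    have h1 := rank_add_le G hdn q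
    rw [hPD2, mul_comm d]
    omega
  refine ⟨?_, ?_⟩
  · by_cases hc : 2 * d ≤ S.card
    · obtain ⟨q, hq⟩ := rank_of_genRigid G (rigid_of_card G ψ S hS hc)
      refine ⟨q, le_antisymm (hup q) ?_⟩
      refine (min_le_right _ _).trans ?_
      rw [hPD2, mul_comm d]
      omega
    · push Not at hc
      obtain ⟨k, hk⟩ := even_card G ψ S hS hp2.ne'
      have hws : ∃ e : Fin d → ZMod (Fintype.card V), Function.Injective e ∧
          (∀ j, e j ≠ 0) ∧ WS e := by
        rcases hd with ⟨rfl, h⟩ | h
        · exact exists_ws_three h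
        · exact exists_ws h
      obtain ⟨e, he, he0, hews⟩ := hws
      have h1 := rank_circ_of_ws hp2.ne' e he he0 hews (G.comap ψ) S (fun x y => hS x y) k
        (by omega) (by omega)
      have h2 := rank_comap_le G ψ (pl e ∘ ψ.symm)
      have h3 : (pl e ∘ ψ.symm) ∘ ψ = pl e := by
        funext x
        simp
      rw [h3] at h2
      obtain ⟨x⟩ : Nonempty (Fin (d + 1) ↪ V) := by
        rw [Function.Embedding.nonempty_iff_card_le, Fintype.card_fin]
        exact hdn
      obtain ⟨q, hq, -⟩ := exists_real G x x.injective (pl e ∘ ψ.symm)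
      refine ⟨q, le_antisymm (hup q) ?_⟩
      refine (min_le_left _ _).trans ?_
      have h4 := two_mul_edges G ψ S hS
      rw [hk] at h4
      nlinarith
  · rintro _ ⟨q, rfl⟩
    exact hup q

end Pool.Agent.H913.Rig
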