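import Pool.Agent.H913.Rig.Defs

set_option autoImplicit false

/-!
Ranks of rigidity matrices over different fields.
-/

namespace Pool.Agent.H913.Rig

open Matrix

section Minor

variable {K m n : Type*} [Field K] [Fintype m] [Fintype n]

theorem exists_rows (A : Matrix m n K) :
    ∃ r : Fin A.rank → m, LinearIndependent K (A.submatrix r id).row := by
  obtain ⟨f, hf, -, hli⟩ := Submodule.exists_fun_fin_finrank_span_eq K (Set.range A.row)
  choose r hr using hf
  have h : A.rank = Module.finrank K (Submodule.span K (Set.range A.row)) :=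
    A.rank_eq_finrank_span_row
  refine ⟨fun i => r (Fin.cast h i), ?_⟩
  have h2 : (A.submatrix (fun i => r (Fin.cast h i)) id).row = f ∘ (Fin.cast h) := by
    funext i
    exact hr _
  rw [h2]
  exact hli.comp _ (Fin.cast_injective h)

theorem exists_minor (A : Matrix m n K) :
    ∃ (r : Fin A.rank → m) (c : Fin A.rank → n), (A.submatrix r c).det ≠ 0 := by
  classical
  obtain ⟨r, hr⟩ := exists_rows A
  have h1 : (A.submatrix r id).rank = A.rank := by
    rw [LinearIndependent.rank_matrix hr, Fintype.card_fin]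
  have h2 : ((A.submatrix r id)ᵀ).rank = A.rank := by
    rw [Matrix.rank_transpose, h1]
  obtain ⟨c, hc⟩ := exists_rows (A.submatrix r id)ᵀ
  refine ⟨r, fun i => c (Fin.cast h2.symm i), ?_⟩
  have h3 : LinearIndependent K ((A.submatrix r (fun i => c (Fin.cast h2.symm i)))ᵀ).row := by
    have := hc.comp _ (Fin.cast_injective h2.symm)
    exact this
  rw [Matrix.linearIndependent_rows_iff_isUnit, Matrix.isUnit_iff_isUnit_det,
    Matrix.det_transpose] at h3
  exact h3.ne_zero

end Minor

section Mat

variable {K V : Type*} [DecidableEq V] {d : ℕ} (G : SimpleGraph V)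

theorem mulVec_apply [Field K] [Fintype V] (p : V → Fin d → K) (q : V × Fin d → K) {u v : V}
    (h : G.Adj u v) :
    (rigidityMatrix G p *ᵥ q) ⟨s(u, v), h⟩ = ∑ j, (p u j - p v j) * (q (u, j) - q (v, j)) := by
  rw [Matrix.mulVec, dotProduct, Fintype.sum_prod_type, Finset.sum_comm]
  apply Finset.sum_congr rfl
  intro j _
  simp only [rigidityMatrix, Sym2.lift_mk]
  have h1 : ∀ x : V, (p u j - p v j) * ((if x = u then (1 : K) else 0) - (if x = v then 1 else 0))
      * q (x, j) = (p u j - p v j) * ((if x = u then q (x, j) else 0)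
        - (if x = v then q (x, j) else 0)) := by
    intro x
    split_ifs <;> ring
  rw [Finset.sum_congr rfl (fun x _ => h1 x), ← Finset.mul_sum, Finset.sum_sub_distrib]
  simp

theorem mulVec_eq_zero [Field K] [Fintype V] (p : V → Fin d → K) (q : V × Fin d → K) :
    rigidityMatrix G p *ᵥ q = 0 ↔ IsMotion G p (fun v j => q (v, j)) := by
  constructor
  · intro h u v huv
    rw [← mulVec_apply G p q huv, h]
    rfl
  · intro h
    funext ⟨e, he⟩
    induction e using Sym2.ind with
    | _ u v =>
      rw [mulVec_apply G p q he]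
      exact h u v he

/-- The rigidity matrix with indeterminate coordinates. -/
noncomputable def genMat (d : ℕ) : Matrix G.edgeSet (V × Fin d) (MvPolynomial (V × Fin d) ℤ) :=
  rigidityMatrix G (fun v j => MvPolynomial.X (v, j))

theorem genMat_map [CommRing K] (p : V → Fin d → K) :
    (genMat G d).map (MvPolynomial.aeval (fun x => p x.1 x.2) : MvPolynomial (V × Fin d) ℤ →ₐ[ℤ] K)
      = rigidityMatrix G p := by
  ext ⟨e, he⟩ ⟨w, j⟩
  induction e using Sym2.ind with
  | _ u v =>
    simp only [genMat, rigidityMatrix, Matrix.map_apply, Sym2.lift_mk]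
    simp only [map_mul, map_sub, MvPolynomial.aeval_X]
    congr 1
    split_ifs <;> simp

/-- The difference matrix of `d + 1` points. -/
def diffMat [CommRing K] (x : Fin (d + 1) → V) (p : V → Fin d → K) : Matrix (Fin d) (Fin d) K :=
  fun i j => p (x i.succ) j - p (x 0) j

theorem exists_real {K0 : Type} [Field K0] [Fintype V] (x : Fin (d + 1) → V)
    (hx : Function.Injective x) (p0 : V → Fin d → K0) :
    ∃ p : V → Fin d → ℝ, (rigidityMatrix G p0).rank ≤ (rigidityMatrix G p).rank ∧
      (diffMat x p).det ≠ 0 := by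
  classical
  obtain ⟨r, c, hrc⟩ := exists_minor (rigidityMatrix G p0)
  set D : MvPolynomial (V × Fin d) ℤ := ((genMat G d).submatrix r c).det with hD
  set D' : MvPolynomial (V × Fin d) ℤ :=
    (diffMat x (fun v j => (MvPolynomial.X (v, j) : MvPolynomial (V × Fin d) ℤ))).det with hD'
  have hDe : ∀ (K : Type) [CommRing K] (p : V → Fin d → K),
      MvPolynomial.aeval (fun x => p x.1 x.2) D = ((rigidityMatrix G p).submatrix r c).det := by
    intro K _ p
    rw [hD, AlgHom.map_det]
    congr 1
    rw [← genMat_map G p]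
    rfl
  have hDe' : ∀ (K : Type) [CommRing K] (p : V → Fin d → K),
      MvPolynomial.aeval (fun x => p x.1 x.2) D' = (diffMat x p).det := by
    intro K _ p
    rw [hD', AlgHom.map_det]
    congr 1
    ext i j
    simp [diffMat]
  have hD0 : D ≠ 0 := by
    intro h
    have := hDe K0 p0
    rw [h, map_zero] at this
    exact hrc this.symm
  have hD'0 : D' ≠ 0 := by
    intro h
    have h1 := hDe' ℤ (fun v j => if v = x j.succ then 1 else 0)
    rw [h, map_zero] at h1
    have h2 : diffMat x (fun v j => if v = x j.succ then (1 : ℤ) else 0) = 1 := by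
      ext i j
      simp only [diffMat, hx.eq_iff, Fin.succ_inj, Matrix.one_apply]
      rw [if_neg (fun h => Fin.succ_ne_zero j h.symm : ¬ ((0 : Fin (d + 1)) = j.succ)), sub_zero]
    rw [h2, Matrix.det_one] at h1
    exact one_ne_zero h1.symm
  have hne : D * D' ≠ 0 := mul_ne_zero hD0 hD'0
  obtain ⟨y, hy⟩ : ∃ y : V × Fin d → ℤ, MvPolynomial.eval y (D * D') ≠ 0 := by
    by_contra hcon
    push Not at hcon
    exact hne (MvPolynomial.funext (fun y => by rw [hcon y, map_zero]))
  have hcast : ∀ E : MvPolynomial (V × Fin d) ℤ,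
      MvPolynomial.aeval (fun x : V × Fin d => ((y (x.1, x.2) : ℤ) : ℝ)) E
        = ((MvPolynomial.eval y E : ℤ) : ℝ) := by
    intro E
    have h1 := MvPolynomial.eval₂_comp_left (Int.castRingHom ℝ) (RingHom.id ℤ) y E
    rw [MvPolynomial.aeval_def]
    rw [← MvPolynomial.eval₂_id] 
    have h2 : (algebraMap ℤ ℝ) = (Int.castRingHom ℝ).comp (RingHom.id ℤ) := by
      ext
      simp
    rw [h2]
    exact h1.symm
  refine ⟨fun v j => ((y (v, j) : ℤ) : ℝ), ?_, ?_⟩
  · have h1 : ((rigidityMatrix G (fun v j => ((y (v, j) : ℤ) : ℝ))).submatrix r c).det ≠ 0 := by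
      rw [← hDe ℝ (fun v j => ((y (v, j) : ℤ) : ℝ)), hcast D]
      rw [map_mul] at hy
      exact_mod_cast left_ne_zero_of_mul hy
    have h2 := Matrix.rank_submatrix_le (rigidityMatrix G (fun v j => ((y (v, j) : ℤ) : ℝ))) r c
    rw [Matrix.rank_of_det_ne_zero h1, Fintype.card_fin] at h2
    exact h2
  · rw [← hDe' ℝ (fun v j => ((y (v, j) : ℤ) : ℝ)), hcast D']
    rw [map_mul] at hy
    exact_mod_cast right_ne_zero_of_mul hy

end Mat

end Pool.Agent.H913.Rig
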