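import Pool.Agent.H913.Rig.Circ

set_option autoImplicit false

/-!
Circulant graphs of prime order of degree at least `2 d` are rigid in `ℝ^d`.
-/

namespace Pool.Agent.H913.Rig

open Finset

variable {p : ℕ} [Fact p.Prime] {d : ℕ}


theorem ker_le (hp2 : p ≠ 2) (e : Fin d → ZMod p) (he : Function.Injective e)
    (he0 : ∀ j, e j ≠ 0) (G : SimpleGraph (ZMod p)) (S : Finset (ZMod p))
    (hS : ∀ x y, G.Adj x y ↔ y - x ∈ S) (hcard : 2 * d ≤ S.card) (q : ZMod p × Fin d → ℂ)
    (hq : Matrix.mulVec (rigidityMatrix G (pl e)) q = 0) : q ∈ LinearMap.range (triv (pl e)) := by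
  classical
  have hp : p.Prime := Fact.out
  have hp0 : (p : ℂ) ≠ 0 := by exact_mod_cast hp.ne_zero
  have h0S : (0 : ZMod p) ∉ S := by
    intro h
    exact G.loopless.irrefl 0 ((hS 0 0).2 (by simpa using h))
  have hm := (mulVec_eq_zero G (pl e) q).1 hq
  -- block equations
  have hb : ∀ f x, x ≠ 0 → x ≠ f → ex e (co e q f) x + ex e (co e q f) (f - x) = 0 := by
    intro f x hx0 hxf
    apply block hp2 e f (co e q f) univ (by simp) (insert 0 S)
    · rw [Finset.card_insert_of_notMem h0S, Finset.card_univ, Fintype.card_fin]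
      omega
    · intro s hs
      rcases Finset.mem_insert.1 hs with rfl | hs
      · apply Finset.sum_eq_zero
        intro j _
        rw [ent_zero', mul_zero]
      · exact co_eq e G S hS q hm f s hs
    · exact hx0
    · exact hxf
  -- the coefficients
  have hskew : ∀ i j, i ≠ j → co e q (e i + e j) j + co e q (e i + e j) i = 0 := by
    intro i j hij
    have h1 := hb (e i + e j) (e j) (he0 j) (fun h => he0 i (by simpa using h))
    rwa [add_sub_cancel_right, ex_apply e he, ex_apply e he] at h1
  have hdiag : ∀ j, co e q (e j + e j) j = 0 := by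
    intro j
    have h1 := hb (e j + e j) (e j) (he0 j) (fun h => he0 j (by simpa using h))
    rw [add_sub_cancel_right, ex_apply e he] at h1
    exact self_eq_neg.1 (eq_neg_of_add_eq_zero_left h1)
  have hzero : ∀ f j, f ≠ e j → (∀ i, f ≠ e j + e i) → co e q f j = 0 := by
    intro f j hf hf2
    have h1 := hb f (e j) (he0 j) (fun h => hf h.symm)
    rw [ex_apply e he, ex_eq_zero e _ (f - e j), add_zero] at h1
    · exact h1
    · intro i h
      apply hf2 i
      rw [h]
      ring
  have hexp : ∀ x j, (p : ℂ) * q (x, j) = co e q (e j) j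
      + ∑ i, co e q (e j + e i) j * (ZMod.stdAddChar : AddChar (ZMod p) ℂ) (e i * x) := by
    intro x j
    rw [← inversion e q x j]
    have h1 : ∑ f, co e q f j * (ZMod.stdAddChar : AddChar (ZMod p) ℂ) ((f - e j) * x)
        = ∑ f ∈ insert (e j) (univ.image fun i => e j + e i), co e q f j * (ZMod.stdAddChar : AddChar (ZMod p) ℂ) ((f - e j) * x) := by
      symm
      apply Finset.sum_subset (Finset.subset_univ _)
      intro f _ hf
      rw [Finset.mem_insert, Finset.mem_image, not_or] at hf
      rw [hzero f j hf.1 (fun i h => hf.2 ⟨i, mem_univ _, h.symm⟩), zero_mul]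
    rw [h1, Finset.sum_insert, Finset.sum_image]
    · congr 1
      · rw [sub_self, zero_mul, AddChar.map_zero_eq_one, mul_one]
      · apply Finset.sum_congr rfl
        intro i _
        rw [add_sub_cancel_left]
    · intro i _ i' _ h
      exact he (add_left_cancel h)
    · rw [Finset.mem_image]
      rintro ⟨i, _, h⟩
      exact he0 i (by simpa using h)
  set A : Matrix (Fin d) (Fin d) ℂ := fun j i => (p : ℂ)⁻¹ * co e q (e j + e i) j with hA
  have hA1 : ∀ i j, A j i = - A i j := by
    intro i j
    simp only [hA]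
    by_cases hij : i = j
    · subst hij
      rw [hdiag]
      simp
    · have h1 := hskew i j hij
      rw [add_comm (e j) (e i), eq_neg_of_add_eq_zero_left h1]
      ring
  have hA0 : ∀ i, A i i = 0 := by
    intro i
    simp only [hA]
    rw [hdiag]
    simp
  refine ⟨(fun x => A x.1.1 x.1.2, fun j => (p : ℂ)⁻¹ * co e q (e j) j), ?_⟩
  funext ⟨x, j⟩
  rw [triv_apply, skew_eq A hA1 hA0]
  have h1 := hexp x j
  have h2 : q (x, j) = (p : ℂ)⁻¹ * ((p : ℂ) * q (x, j)) := by
    field_simp
  rw [h2, h1, mul_add, Finset.mul_sum, add_comm]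
  congr 1
  rw [Matrix.mulVec, dotProduct]
  apply Finset.sum_congr rfl
  intro i _
  simp only [hA, pl]
  ring

theorem circ_rigid (G : SimpleGraph (ZMod p)) (S : Finset (ZMod p))
    (hS : ∀ x y, G.Adj x y ↔ y - x ∈ S) (hcard : 2 * d ≤ S.card) : GenRigid d G := by
  classical
  have hp : p.Prime := Fact.out
  have h0S : (0 : ZMod p) ∉ S := by
    intro h
    exact G.loopless.irrefl 0 ((hS 0 0).2 (by simpa using h))
  have h1 : S.card + 1 ≤ p := by
    rw [← Finset.card_insert_of_notMem h0S]
    calc _ ≤ (univ : Finset (ZMod p)).card := Finset.card_le_card (Finset.subset_univ _)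
      _ = p := by rw [Finset.card_univ, ZMod.card]
  rcases Nat.eq_zero_or_pos d with rfl | hd
  · refine ⟨fun _ _ => 0, fun q _ => ⟨0, 0, by simp, fun v => ?_⟩⟩
    funext j
    exact j.elim0
  have hp2 : p ≠ 2 := by omega
  have hval : ∀ j : Fin d, ((j.val + 1 : ℕ) : ZMod p).val = j.val + 1 := by
    intro j
    rw [ZMod.val_natCast, Nat.mod_eq_of_lt]
    have := j.isLt
    omega
  apply genRigid_of_complex G (by rw [ZMod.card]; omega)
    (pl (fun j : Fin d => ((j.val + 1 : ℕ) : ZMod p)))
  intro q hq
  refine ker_le hp2 _ ?_ ?_ G S hS hcard q hq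
  · intro i j hij
    have := congrArg ZMod.val hij
    rw [hval, hval] at this
    exact Fin.ext (by omega)
  · intro j h
    have := congrArg ZMod.val h
    rw [hval, ZMod.val_zero] at this
    omega

end Pool.Agent.H913.Rig
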