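import Pool.Agent.H913.Rig.Defs

set_option autoImplicit false

/-!
Vertex-transitive graphs of prime order are circulant.
-/

namespace Pool.Agent.H913.Rig

open Finset

/-- The automorphism group, as a group of permutations. -/
def autG {V : Type*} (G : SimpleGraph V) : Subgroup (Equiv.Perm V) where
  carrier := {σ | ∀ u v, G.Adj (σ u) (σ v) ↔ G.Adj u v}
  mul_mem' := by
    intro σ τ hσ hτ u v
    change G.Adj (σ (τ u)) (σ (τ v)) ↔ _
    rw [hσ, hτ]
  one_mem' := by
    intro u v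
    rfl
  inv_mem' := by
    intro σ hσ u v
    have := hσ (σ⁻¹ u) (σ⁻¹ v)
    simpa using this.symm

theorem exists_circ {V : Type*} [Fintype V] (G : SimpleGraph V) (p : ℕ) [Fact p.Prime]
    (hcard : Fintype.card V = p) (hG : VertexTransitive G) :
    ∃ (ψ : ZMod p ≃ V) (S : Finset (ZMod p)), ∀ x y, G.Adj (ψ x) (ψ y) ↔ y - x ∈ S := by
  classical
  have hp : p.Prime := Fact.out
  obtain ⟨v0⟩ : Nonempty V := Fintype.card_pos_iff.1 (by rw [hcard]; exact hp.pos)
  -- transitivity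
  have htrans : ∀ v, ∃ σ : autG G, σ • v0 = v := by
    intro v
    obtain ⟨φ, hφ⟩ := hG v0 v
    exact ⟨⟨φ.toEquiv, fun a b => φ.map_rel_iff⟩, hφ⟩
  have horb : MulAction.orbit (autG G) v0 = Set.univ := by
    ext v
    simp only [Set.mem_univ, iff_true]
    obtain ⟨σ, hσ⟩ := htrans v
    exact ⟨σ, hσ⟩
  have hdvd : p ∣ Fintype.card (autG G) := by
    have h1 := MulAction.card_orbit_mul_card_stabilizer_eq_card_group (autG G) v0
    have h2 : Fintype.card (MulAction.orbit (autG G) v0) = p := by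
      rw [← hcard]
      rw [← Set.toFinset_card]
      simp [horb]
    rw [← h1, h2]
    exact dvd_mul_right _ _
  obtain ⟨σ, hσ⟩ := exists_prime_orderOf_dvd_card p hdvd
  have hσ' : orderOf (σ : Equiv.Perm V) = p := by
    rw [← hσ]
    exact Subgroup.orderOf_coe σ
  have hcyc : (σ : Equiv.Perm V).IsCycle := by
    apply Equiv.Perm.isCycle_of_prime_order''
    · rw [hcard]; exact hp
    · rw [hσ', hcard]
  have hsupp : (σ : Equiv.Perm V).support = univ := by
    apply Finset.eq_univ_of_card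
    rw [← hcyc.orderOf, hσ', hcard]
  have hmove : ∀ v, (σ : Equiv.Perm V) v ≠ v := by
    intro v
    rw [← Equiv.Perm.mem_support, hsupp]
    exact mem_univ _
  set s : Equiv.Perm V := (σ : Equiv.Perm V) with hs
  have hzmod : ∀ m n : ℤ, ((m : ZMod p) = (n : ZMod p)) → s ^ m = s ^ n := by
    intro m n hmn
    rw [zpow_eq_zpow_iff_modEq, hσ']
    exact (ZMod.intCast_eq_intCast_iff m n p).1 hmn
  let ψ0 : ZMod p → V := fun x => (s ^ (x.val : ℤ)) v0
  have hψ0 : ∀ m : ℤ, (s ^ m) v0 = ψ0 (m : ZMod p) := by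
    intro m
    change _ = (s ^ ((m : ZMod p).val : ℤ)) v0
    rw [hzmod m (((m : ZMod p).val : ℕ) : ℤ) (by simp)]
  have hsurj : Function.Surjective ψ0 := by
    intro v
    obtain ⟨i, hi⟩ := hcyc.exists_zpow_eq (hmove v0) (hmove v)
    exact ⟨(i : ZMod p), by rw [← hψ0]; exact hi⟩
  have hbij : Function.Bijective ψ0 := by
    rw [Fintype.bijective_iff_surjective_and_card]
    exact ⟨hsurj, by rw [ZMod.card, hcard]⟩
  refine ⟨Equiv.ofBijective ψ0 hbij, univ.filter fun x => G.Adj v0 (ψ0 x), ?_⟩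
  intro x y
  rw [Finset.mem_filter, Equiv.ofBijective_apply, Equiv.ofBijective_apply]
  have h1 : ψ0 (y - x) = (s ^ (-(x.val : ℤ))) (ψ0 y) := by
    have h2 : (((y.val : ℤ) - (x.val : ℤ) : ℤ) : ZMod p) = y - x := by simp
    rw [← h2, ← hψ0]
    change _ = (s ^ (-(x.val : ℤ))) ((s ^ (y.val : ℤ)) v0)
    rw [← Equiv.Perm.mul_apply, ← zpow_add]
    congr 2
    ring
  have h3 : v0 = (s ^ (-(x.val : ℤ))) (ψ0 x) := by
    change _ = (s ^ (-(x.val : ℤ))) ((s ^ (x.val : ℤ)) v0)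
    rw [← Equiv.Perm.mul_apply, ← zpow_add]
    simp
  have hmem : s ^ (-(x.val : ℤ)) ∈ autG G := Subgroup.zpow_mem _ σ.2 _
  constructor
  · intro h
    refine ⟨mem_univ _, ?_⟩
    rw [h1, h3]
    exact (hmem (ψ0 x) (ψ0 y)).2 h
  · intro h
    have h4 := h.2
    rw [h1, h3] at h4
    exact (hmem (ψ0 x) (ψ0 y)).1 h4

end Pool.Agent.H913.Rig
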