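import Mathlib

set_option autoImplicit false

/-!
A Chebotarev type lemma: preparations.
-/

namespace Pool.Agent.H913.Rig

open Polynomial

/-- The functional `∑ c_a X^a ↦ ∑ c_a Q(a)`. -/
noncomputable def fn {k : Type*} [CommRing k] (Q : k[X]) : k[X] →ₗ[k] k :=
  Polynomial.lsum (fun a : ℕ => (Q.eval (a : k)) • (LinearMap.id : k →ₗ[k] k))

theorem fn_monomial {k : Type*} [CommRing k] (Q : k[X]) (a : ℕ) (c : k) :
    fn Q (C c * X ^ a) = c * Q.eval (a : k) := by
  rw [fn, Polynomial.lsum_apply, Polynomial.C_mul_X_pow_eq_monomial,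
    Polynomial.sum_monomial_index]
  · simp [mul_comm]
  · simp

theorem fn_X_pow {k : Type*} [CommRing k] (Q : k[X]) (a : ℕ) :
    fn Q (X ^ a) = Q.eval (a : k) := by
  have := fn_monomial Q a 1
  simpa using this

theorem fn_sub_one_mul {k : Type*} [CommRing k] (Q R : k[X]) :
    fn Q ((X - 1) * R) = fn (taylor 1 Q - Q) R := by
  induction R using Polynomial.induction_on' with
  | add p q hp hq => rw [mul_add, map_add, hp, hq, map_add]
  | monomial a c =>
    rw [← Polynomial.C_mul_X_pow_eq_monomial, fn_monomial]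
    have h : (X - 1) * (C c * X ^ a) = C c * X ^ (a + 1) - C c * X ^ a := by ring
    rw [h, map_sub, fn_monomial, fn_monomial, eval_sub, taylor_eval]
    push_cast
    ring

theorem fn_eq_zero {k : Type*} [Field k] (N : ℕ) : ∀ (Q P : k[X]), Q.degree < N →
    (X - 1) ^ N ∣ P → fn Q P = 0 := by
  induction N with
  | zero =>
    intro Q P hQ _
    have : Q = 0 := by
      rw [← Polynomial.degree_eq_bot]
      by_contra h
      have := Polynomial.zero_le_degree_iff.2 (by
        intro h0
        exact h (Polynomial.degree_eq_bot.2 h0))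
      simp only [Nat.cast_zero] at hQ
      exact absurd hQ (not_lt.2 this)
    subst this
    obtain ⟨R, hR⟩ : ∃ R, R = P := ⟨P, rfl⟩
    induction P using Polynomial.induction_on' generalizing R with
    | add p q hp hq => rw [map_add, hp (one_dvd _) p rfl, hq (one_dvd _) q rfl, add_zero]
    | monomial a c =>
      rw [← Polynomial.C_mul_X_pow_eq_monomial, fn_monomial]
      simp
  | succ N ih =>
    intro Q P hQ hP
    obtain ⟨R, rfl⟩ := hP
    rw [pow_succ', mul_assoc, fn_sub_one_mul]
    by_cases h0 : Q = 0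
    · subst h0
      have : taylor (1 : k) (0 : k[X]) - 0 = 0 := by simp
      rw [this]
      exact ih 0 _ (by simp) (dvd_mul_right _ _)
    · apply ih _ _ _ (dvd_mul_right _ _)
      have h1 : (taylor 1 Q - Q).degree < (taylor 1 Q).degree :=
        Polynomial.degree_sub_lt_left (Polynomial.degree_taylor _ _)
          (by
            intro h
            apply h0
            rw [← Polynomial.degree_eq_bot, ← Polynomial.degree_taylor Q 1, h]
            simp) (Polynomial.leadingCoeff_taylor _ _)
      rw [Polynomial.degree_taylor] at h1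
      have h2 : Q.degree < ((N + 1 : ℕ) : WithBot ℕ) := hQ
      have h3 : Q.degree = (Q.natDegree : WithBot ℕ) := Polynomial.degree_eq_natDegree h0
      rw [h3] at h1 h2
      have h4 : Q.natDegree < N + 1 := by exact_mod_cast h2
      refine lt_of_lt_of_le h1 ?_
      exact_mod_cast Nat.lt_succ_iff.1 h4

/-- There is a valuation ring of `ℂ` with residue characteristic `p`. -/
theorem exists_val (p : ℕ) (hp : p.Prime) :
    ∃ A : ValuationSubring ℂ, ((p : ℕ) : A) ∈ IsLocalRing.maximalIdeal A := by
  have hI : Ideal.span {((p : ℕ) : (⊥ : Subring ℂ))} ≠ ⊤ := by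
    rw [Ne, Ideal.span_singleton_eq_top]
    intro h
    obtain ⟨⟨b, hb⟩, hb2⟩ := h.exists_right_inv
    rw [Subring.mem_bot] at hb
    obtain ⟨n, rfl⟩ := hb
    have h1 : ((p : ℂ)) * (n : ℂ) = 1 := by
      have := congrArg Subtype.val hb2
      simpa using this
    have h2 : (p : ℤ) * n = 1 := by exact_mod_cast h1
    have h3 : (p : ℤ) ∣ 1 := ⟨n, h2.symm⟩
    have h4 : p ∣ 1 := by exact_mod_cast h3
    exact hp.one_lt.ne' (Nat.dvd_one.1 h4)
  obtain ⟨B, _, hB2⟩ := Ideal.image_subset_nonunits_valuationSubring _ hI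
  refine ⟨B, ?_⟩
  have h1 : ((p : ℂ)) ∈ B.nonunits := by
    apply hB2
    exact ⟨((p : ℕ) : (⊥ : Subring ℂ)), Ideal.subset_span rfl, by simp⟩
  rw [ValuationSubring.valuation_lt_one_iff]
  rw [ValuationSubring.mem_nonunits_iff] at h1
  simpa using h1

end Pool.Agent.H913.Rig
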